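import Pool.Agent.Helper16.SYM.Defs

/-!
# Project SYM, piece B3: points on a curve
-/

set_option autoImplicit false

namespace Pool.Agent.Helper8.SYM

open Polynomial

/-- Elimination: a nonzero polynomial of smaller degree in `z` has a nonzero resultant. -/
lemma bezout {k : Type*} [Field k] {G T : k[X][X]} (hG : G.Monic) (hirr : Irreducible G)
    (hT : T ≠ 0) (hdeg : T.natDegree < G.natDegree) :
    ∃ (u v : k[X][X]) (d : k[X]), d ≠ 0 ∧ G * u + T * v = C d := by
  obtain ⟨p, q, -, -, h⟩ := exists_mul_add_mul_eq_C_resultant G T le_rfl le_rfl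
    (Or.inl (by omega))
  refine ⟨p, q, _, ?_, h⟩
  intro h0
  have hinj : Function.Injective (algebraMap k[X] (FractionRing k[X])) :=
    IsFractionRing.injective _ _
  have h1 : resultant (G.map (algebraMap k[X] (FractionRing k[X])))
      (T.map (algebraMap k[X] (FractionRing k[X]))) = 0 := by
    rw [natDegree_map_eq_of_injective hinj, natDegree_map_eq_of_injective hinj,
      resultant_map_map, h0, map_zero]
  rw [resultant_eq_zero_iff] at h1
  apply h1.2
  have hirr' : Irreducible (G.map (algebraMap k[X] (FractionRing k[X]))) :=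
    (hG.irreducible_iff_irreducible_map_fraction_map (K := FractionRing k[X])).1 hirr
  rw [hirr'.coprime_iff_not_dvd]
  intro hd
  have hT' : T.map (algebraMap k[X] (FractionRing k[X])) ≠ 0 :=
    (Polynomial.map_ne_zero_iff hinj).2 hT
  have h2 := Polynomial.natDegree_le_of_dvd hd hT'
  rw [natDegree_map_eq_of_injective hinj, natDegree_map_eq_of_injective hinj] at h2
  omega

/-- Evaluation in both orders. -/
lemma eval_eval {k : Type*} [Field k] (T : k[X][X]) (a b : k) :
    (T.eval (C b)).eval a = (T.map (evalRingHom a)).eval b := by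
  rw [eval_map, eval₂_eq_sum_range, eval_eq_sum_range (p := T), eval_finsetSum]
  simp

lemma finite_bad {k : Type*} [Field k] [CharZero k] {d : k[X]} (hd : d ≠ 0) :
    {n : ℕ | d.eval (n : k) = 0}.Finite := by
  classical
  have h1 : (d.roots.toFinset : Set k).Finite := Finset.finite_toSet _
  have h2 : {n : ℕ | d.eval (n : k) = 0} = (fun n : ℕ => (n : k)) ⁻¹' (d.roots.toFinset : Set k) := by
    ext n
    simp [mem_roots', hd]
  rw [h2]
  exact h1.preimage (Nat.cast_injective.injOn)

/-- The polynomial with given coefficients. -/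
lemma eval_as_sum {k : Type*} [Field k] (D : ℕ) (T : k[X][X]) (hT : T.natDegree < D)
    (hc : ∀ l, (T.coeff l).natDegree < D) (a b : k) :
    (T.eval (C b)).eval a =
      ∑ j : Fin D, ∑ i : Fin D, (T.coeff j).coeff i * (a ^ (i : ℕ) * b ^ (j : ℕ)) := by
  rw [eval_eq_sum_range' hT, ← Fin.sum_univ_eq_sum_range
    (fun j => T.coeff j * (C b) ^ j) D, eval_finsetSum]
  refine Finset.sum_congr rfl fun j _ => ?_
  rw [eval_mul, eval_pow, eval_C, eval_eq_sum_range' (hc j), ← Fin.sum_univ_eq_sum_range
    (fun i => (T.coeff j).coeff i * a ^ i) D, Finset.sum_mul]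
  refine Finset.sum_congr rfl fun i _ => ?_
  ring

/-- B3 -/
theorem exists_points {k : Type*} [Field k] [IsAlgClosed k] [CharZero k] {G : k[X][X]}
    (hG : G.Monic) (hr : 0 < G.natDegree) (hirr : Irreducible G) (e : ℕ) :
    ∃ (m : ℕ) (b : ℕ → k) (N₀ : ℕ),
      (∀ i : ℕ, (G.eval (C (b i))).eval ((m + i : ℕ) : k) = 0) ∧
      (∀ i : ℕ, ((derivative G).eval (C (b i))).eval ((m + i : ℕ) : k) ≠ 0) ∧
      ∀ T : k[X][X], T ≠ 0 →
        (∀ l, T.coeff l ≠ 0 → (T.coeff l).natDegree + e * l + 1 ≤ e * (G.natDegree - 1)) →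
        ∃ i < N₀, (T.eval (C (b i))).eval ((m + i : ℕ) : k) ≠ 0 := by
  classical
  -- the derivative
  have hG' : derivative G ≠ 0 := by
    intro h0
    have h1 : (derivative G).coeff (G.natDegree - 1) = 0 := by rw [h0, coeff_zero]
    rw [coeff_derivative, Nat.sub_add_cancel hr, hG.coeff_natDegree, one_mul] at h1
    have h2 : (((G.natDegree - 1 : ℕ) : k[X]) + 1) = ((G.natDegree : ℕ) : k[X]) := by
      rw [← Nat.cast_add_one, Nat.sub_add_cancel hr]
    rw [h2] at h1
    exact hr.ne' (Nat.cast_eq_zero.1 h1)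
  obtain ⟨u, v, d, hd0, hd⟩ := bezout hG hirr hG' (natDegree_derivative_lt hr.ne')
  obtain ⟨m, hm⟩ := (finite_bad hd0).bddAbove
  -- the roots
  have hroot : ∀ i : ℕ, ∃ b : k, (G.eval (C b)).eval ((m + 1 + i : ℕ) : k) = 0 := by
    intro i
    have h1 : (G.map (evalRingHom ((m + 1 + i : ℕ) : k))).degree ≠ 0 := by
      rw [hG.degree_map, degree_eq_natDegree hG.ne_zero]
      exact_mod_cast hr.ne'
    obtain ⟨b, hb⟩ := IsAlgClosed.exists_root _ h1
    exact ⟨b, by rw [eval_eval]; exact hb⟩
  choose b hb using hroot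
  -- vanishing at all points
  have hvan : ∀ T : k[X][X], T ≠ 0 → T.natDegree < G.natDegree →
      ∃ i, (T.eval (C (b i))).eval ((m + 1 + i : ℕ) : k) ≠ 0 := by
    intro T hT hdeg
    by_contra hcon
    push Not at hcon
    obtain ⟨u', v', d', hd0', hd'⟩ := bezout hG hirr hT hdeg
    have h1 : ∀ i : ℕ, d'.eval ((m + 1 + i : ℕ) : k) = 0 := by
      intro i
      have h2 := congrArg (fun f : k[X][X] => (f.eval (C (b i))).eval ((m + 1 + i : ℕ) : k)) hd'
      simp only [eval_add, eval_mul, hb i, hcon i, zero_mul, add_zero, eval_C] at h2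
      exact h2.symm
    have h3 := finite_bad hd0'
    apply Set.infinite_of_injective_forall_mem (f := fun i : ℕ => m + 1 + i) ?_ h1 h3
    intro i j hij
    simpa using hij
  -- the finite dimensional space of coefficients
  set D : ℕ := e * G.natDegree + G.natDegree + 1 with hD
  let ev : ℕ → ((Fin D → Fin D → k) →ₗ[k] k) := fun n =>
    { toFun := fun c => ∑ j : Fin D, ∑ i : Fin D,
        c j i * (((m + 1 + n : ℕ) : k) ^ (i : ℕ) * (b n) ^ (j : ℕ))
      map_add' := by
        intro c c'
        simp only [Pi.add_apply, add_mul, Finset.sum_add_distrib]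
      map_smul' := by
        intro a c
        simp only [Pi.smul_apply, smul_eq_mul, mul_assoc, Finset.mul_sum, RingHom.id_apply] }
  let V : ℕ → Submodule k (Fin D → Fin D → k) := fun n => ⨅ i : Fin n, LinearMap.ker (ev i)
  have hVmono : Antitone V := by
    intro n n' hnn
    apply le_iInf
    intro i
    exact iInf_le (fun i : Fin n' => LinearMap.ker (ev i)) ⟨i, by omega⟩
  obtain ⟨N₀, hN₀⟩ := IsArtinian.monotone_stabilizes
    (⟨fun n => OrderDual.toDual (V n), fun n n' h => hVmono h⟩ :
      ℕ →o (Submodule k (Fin D → Fin D → k))ᵒᵈ)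
  refine ⟨m + 1, b, N₀, hb, ?_, ?_⟩
  · intro i h0
    have h2 := congrArg (fun f : k[X][X] => (f.eval (C (b i))).eval ((m + 1 + i : ℕ) : k)) hd
    simp only [eval_add, eval_mul, hb i, h0, zero_mul, add_zero, eval_C] at h2
    have h3 : m + 1 + i ∈ {n : ℕ | d.eval (n : k) = 0} := h2.symm
    have h4 := hm h3
    omega
  · intro T hT hw
    -- degrees
    have hl : ∀ l, T.coeff l ≠ 0 → l < G.natDegree := by
      intro l hl0
      have h1 := hw l hl0
      by_contra h2
      have h3 : e * (G.natDegree - 1) ≤ e * l := Nat.mul_le_mul_left _ (by omega)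
      omega
    have hdeg : T.natDegree < G.natDegree := by
      apply hl
      rw [coeff_natDegree]
      exact leadingCoeff_ne_zero.2 hT
    have hle : e * (G.natDegree - 1) ≤ e * G.natDegree := Nat.mul_le_mul_left _ (by omega)
    have hc : ∀ l, (T.coeff l).natDegree < D := by
      intro l
      by_cases h0 : T.coeff l = 0
      · rw [h0, natDegree_zero]; omega
      · have h1 := hw l h0
        omega
    have hev : ∀ n, ev n (fun j i => (T.coeff j).coeff i) =
        (T.eval (C (b n))).eval ((m + 1 + n : ℕ) : k) := by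
      intro n
      rw [eval_as_sum D T (by omega) hc]
      rfl
    by_contra hcon
    push Not at hcon
    obtain ⟨n, hn⟩ := hvan T hT hdeg
    apply hn
    rw [← hev]
    have h1 : (fun (j i : Fin D) => (T.coeff j).coeff i) ∈ V N₀ := by
      simp only [V, Submodule.mem_iInf, LinearMap.mem_ker]
      intro i
      rw [hev]
      exact hcon i i.isLt
    have h2 : V N₀ = V (max N₀ (n + 1)) := by
      have h3 := hN₀ (max N₀ (n + 1)) (le_max_left _ _)
      exact h3
    rw [h2] at h1
    simp only [V, Submodule.mem_iInf, LinearMap.mem_ker] at h1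
    exact h1 ⟨n, lt_of_lt_of_le (Nat.lt_succ_self n) (le_max_right _ _)⟩

end Pool.Agent.Helper8.SYM
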