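import Mathlib

/-! Fibonacci lemma and one step of the construction -/

namespace Pool.Agent.Helper8.Thurn

lemma fib_norm (k : ℕ) : ((Nat.fib (k+1) : ℤ))^2 - Nat.fib (k+1) * Nat.fib k - (Nat.fib k : ℤ)^2 = (-1)^k := by
  induction k with
  | zero => simp
  | succ k ih =>
    have h : (Nat.fib (k+1+1) : ℤ) = Nat.fib k + Nat.fib (k+1) := by
      rw [Nat.fib_add_two]; push_cast; ring
    rw [h, pow_succ (-1 : ℤ) k, ← ih]
    ring

lemma quad_ne_zero (h j : ℤ) (hj : j ≠ 0) : h^2 - h*j - j^2 ≠ 0 := by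
  intro h0
  have h1 : (2*h - j)^2 = 5 * j^2 := by linear_combination 4 * h0
  have hirr : Irrational (Real.sqrt (5:ℕ)) := Nat.Prime.irrational_sqrt (by norm_num)
  apply hirr
  refine ⟨|(2*h - j : ℚ) / j|, ?_⟩
  have hjR : (j:ℝ) ≠ 0 := by exact_mod_cast hj
  have h2 : ((2*h - j : ℝ) / j)^2 = 5 := by
    have : ((2*h - j : ℝ))^2 = 5 * (j:ℝ)^2 := by exact_mod_cast h1
    rw [div_pow, this]
    field_simp
  have h3 : |((2*h - j : ℝ) / j)| = Real.sqrt 5 := by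
    rw [← h2, Real.sqrt_sq_eq_abs]
  push_cast
  exact h3

lemma fib_lemma (k : ℕ) (h j : ℤ) (hj : j ≠ 0)
    (hu : (Nat.fib (k+1) : ℤ) * h + Nat.fib k * j ≠ 0) :
    (Nat.fib (k+1):ℤ) ≤ 6 * (|(Nat.fib (k+1) : ℤ) * h + Nat.fib k * j| * |j|) := by
  set F : ℤ := (Nat.fib (k+1) : ℤ) with hF
  set G : ℤ := (Nat.fib k : ℤ) with hG
  set u : ℤ := F * h + G * j with hudef
  have hFG : F^2 - F*G - G^2 = (-1)^k := fib_norm k
  have hFpos : 1 ≤ F := by
    have : 0 < Nat.fib (k+1) := Nat.fib_pos.mpr (Nat.succ_pos k)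
    rw [hF]; exact_mod_cast this
  have hG0 : 0 ≤ G := by rw [hG]; positivity
  have hGF : G ≤ F := by
    rw [hF, hG]; exact_mod_cast Nat.fib_le_fib_succ
  have hq := quad_ne_zero h j hj
  have hid : F^2 * (h^2 - h*j - j^2) = u^2 - u*j*(F+2*G) - (-1)^k * j^2 := by
    rw [← hFG, hudef]; ring
  have h1 : F^2 ≤ |F^2 * (h^2 - h*j - j^2)| := by
    rw [abs_mul, abs_of_nonneg (sq_nonneg F)]
    have : 1 ≤ |h^2 - h*j - j^2| := Int.one_le_abs hq
    nlinarith [sq_nonneg F]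
  have h2 : |F^2 * (h^2 - h*j - j^2)| ≤ |u|^2 + |u| * |j| * (F+2*G) + |j|^2 := by
    rw [hid]
    have e1 : |u^2 - u*j*(F+2*G) - (-1)^k * j^2| ≤ |u^2| + |u*j*(F+2*G)| + |(-1)^k * j^2| := by
      calc _ ≤ |u^2 - u*j*(F+2*G)| + |(-1)^k * j^2| := abs_sub _ _
        _ ≤ _ := by gcongr; exact abs_sub _ _
    refine e1.trans ?_
    have e2 : |(-1 : ℤ)^k * j^2| = |j|^2 := by
      rw [abs_mul, abs_pow, abs_neg, abs_one, one_pow, one_mul, abs_pow]
    rw [e2, abs_pow, abs_mul, abs_mul, abs_of_nonneg (by positivity : 0 ≤ F + 2*G)]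
  have hu1 : 1 ≤ |u| := Int.one_le_abs hu
  have hj1 : 1 ≤ |j| := Int.one_le_abs hj
  by_contra hcon
  push Not at hcon
  have h3 : F^2 ≤ |u|^2 + |j|^2 + 3 * F * (|u| * |j|) := by
    nlinarith [mul_nonneg (abs_nonneg u) (abs_nonneg j)]
  generalize |u| = a at *
  generalize |j| = b at *
  have hab : 6 * (a * b) + 1 ≤ F := hcon
  have h4 : 3 * F * (a*b) * 2 ≤ F * F := by nlinarith
  have ha : a ≤ a * b := by nlinarith
  have hb : b ≤ a * b := by nlinarith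
  nlinarith

lemma exists_fib (M : ℕ) (hM : 1 ≤ M) : ∃ k : ℕ, M ≤ Nat.fib (k+1) ∧ Nat.fib (k+1) ≤ 2 * M := by
  classical
  have hex : ∃ m, M ≤ Nat.fib m := ⟨M + 5, (by omega : M ≤ M + 5).trans (Nat.le_fib_self (by omega))⟩
  set m := Nat.find hex with hm
  have h1 : M ≤ Nat.fib m := Nat.find_spec hex
  have h0 : m ≠ 0 := by
    intro h
    rw [h] at h1
    simp at h1
    omega
  obtain ⟨k, hk⟩ := Nat.exists_eq_succ_of_ne_zero h0
  refine ⟨k, by rw [← Nat.succ_eq_add_one, ← hk]; exact h1, ?_⟩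
  have h2 : Nat.fib k < M := by
    have := Nat.find_min hex (m := k) (by rw [← hm, hk]; exact Nat.lt_succ_self k)
    omega
  rcases k with _ | k
  · simp; omega
  · have : Nat.fib k ≤ Nat.fib (k+1) := Nat.fib_le_fib_succ
    rw [Nat.fib_add_two]; omega

end Pool.Agent.Helper8.Thurn
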