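import Mathlib
import Pool.Agent.Helper8.Thurn1

/-! One step of the construction -/

namespace Pool.Agent.Helper8.Thurn

/-- a triple `(a, b, c)` of integer vectors in `ℤ³` -/
structure St where
  a0 : ℤ
  a1 : ℤ
  a2 : ℤ
  b0 : ℤ
  b1 : ℤ
  b2 : ℤ
  c0 : ℤ
  c1 : ℤ
  c2 : ℤ

/-- coordinates of the cross product `a × b` -/
def St.z0 (S : St) : ℤ := S.a1 * S.b2 - S.a2 * S.b1
/-- coordinates of the cross product `a × b` -/
def St.z1 (S : St) : ℤ := S.a2 * S.b0 - S.a0 * S.b2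
/-- coordinates of the cross product `a × b` -/
def St.z2 (S : St) : ℤ := S.a0 * S.b1 - S.a1 * S.b0

/-- determinant -/
def St.dt (S : St) : ℤ := S.z0 * S.c0 + S.z1 * S.c1 + S.z2 * S.c2

/-- Invariants -/
structure Inv (N : ℕ) (T : ℤ) (S : St) : Prop where
  det : S.dt = 1
  b1l : T^2 ≤ S.b1
  b1u : S.b1 ≤ 2 * T^2
  b2l : T^N ≤ 2 * S.b2
  b2u : S.b2 ≤ 6 * T^N
  zl : 0 < S.z0
  zu : S.z0 ≤ T^(N+1)

/-- relation between consecutive states -/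
structure Rel (N : ℕ) (T : ℤ) (S S' : St) (k : ℕ) (v0 v1 v2 : ℤ) : Prop where
  a0 : S'.a0 = S.b0
  a1 : S'.a1 = S.b1
  a2 : S'.a2 = S.b2
  nl : T^(N+1) ≤ (Nat.fib (k+1) : ℤ)
  nu : (Nat.fib (k+1) : ℤ) ≤ 2 * T^(N+1)
  z0 : S'.z0 = Nat.fib (k+1) * v0 + Nat.fib k * S.z0
  z1 : S'.z1 = Nat.fib (k+1) * v1 + Nat.fib k * S.z1
  z2 : S'.z2 = Nat.fib (k+1) * v2 + Nat.fib k * S.z2
  va : v0 * S.a0 + v1 * S.a1 + v2 * S.a2 = 1
  vb : v0 * S.b0 + v1 * S.b1 + v2 * S.b2 = 0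
  zv2 : S.z0 * v1 - S.z1 * v0 = S.b2
  zv1 : S.z2 * v0 - S.z0 * v2 = S.b1
  Dl : T^(3*N+2) ≤ S'.z0
  Du : S'.z0 ≤ 5 * T^(3*N+2)

/-- size estimate for the new denominator -/
lemma sizeD (N : ℕ) (hN : 5 ≤ N) (T : ℤ) (hT : 100 ≤ T) (n r D rem : ℤ)
    (hD0 : 0 < D) (hDu : D ≤ T^(N+1)) (hrem0 : 0 ≤ rem) (hremD : rem < D)
    (hnl : T^(N+1) ≤ n) (hnu : n ≤ 2 * T^(N+1)) (hr0 : 0 ≤ r) (hrn : r ≤ n) :
    T^(3*N+2) ≤ n * (T^(2*N+1) + rem) + r * D ∧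
    n * (T^(2*N+1) + rem) + r * D ≤ 5 * T^(3*N+2) := by
  have hT1 : 1 ≤ T := by linarith
  have e1 : T^(3*N+2) = T^(N+1) * T^(2*N+1) := by rw [← pow_add]; congr 1; ring
  have e3 : T^(2*N+1) = T^(N+1) * T^N := by rw [← pow_add]; congr 1; ring
  have hTN : (4:ℤ) ≤ T^N := by
    calc (4:ℤ) ≤ T^1 := by linarith
      _ ≤ T^N := pow_le_pow_right₀ hT1 (by omega)
  have hp : 0 < T^(N+1) := by positivity
  rw [e1, e3]
  generalize T^(N+1) = P at *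
  generalize T^N = Q at *
  have hPQ : 0 < P * Q := by positivity
  have h1 : P * (P * Q) ≤ n * (P * Q + rem) := by
    apply mul_le_mul hnl (by linarith) hPQ.le (by linarith)
  have h2 : 0 ≤ r * D := mul_nonneg hr0 hD0.le
  have h3 : n * (P * Q + rem) ≤ (2 * P) * (P * Q + P) := by
    apply mul_le_mul hnu (by linarith) (by linarith) (by linarith)
  have h4 : r * D ≤ (2 * P) * P := by
    apply mul_le_mul (hrn.trans hnu) hDu hD0.le (by linarith)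
  have h5 : P * P * 4 ≤ P * P * Q := by
    apply mul_le_mul_of_nonneg_left hTN (by positivity)
  refine ⟨by linarith, by nlinarith⟩

/-- size estimate for the new vector -/
lemma sizeW (N : ℕ) (hN : 5 ≤ N) (T : ℤ) (hT : 100 ≤ T) (b1 b2 w1 w2 Z : ℤ)
    (hb1l : T^2 ≤ b1) (hb1u : b1 ≤ 2 * T^2) (hb2l : T^N ≤ 2 * b2) (hb2u : b2 ≤ 6 * T^N)
    (hw1l : T^6 ≤ w1) (hw1u : w1 ≤ 2 * T^6) (hZ : b1 * w2 - b2 * w1 = Z)
    (hZl : T^(3*N+2) ≤ Z) (hZu : Z ≤ 5 * T^(3*N+2)) :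
    T^(3*N) ≤ 2 * w2 ∧ w2 ≤ 6 * T^(3*N) := by
  have hT1 : 1 ≤ T := by linarith
  have e4 : T^(3*N+2) = T^2 * T^(3*N) := by rw [← pow_add]; congr 1; ring
  have e5 : T^(3*N) = T^N * (T^4 * T^(2*N-4)) := by
    rw [← pow_add, ← pow_add]; congr 1; omega
  have h12 : (12:ℤ) ≤ T^(2*N-4) := by
    calc (12:ℤ) ≤ T^1 := by linarith
      _ ≤ T^(2*N-4) := pow_le_pow_right₀ hT1 (by omega)
  have hb1pos : 0 < b1 := lt_of_lt_of_le (by positivity) hb1l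
  have hTN : 0 < T^N := by positivity
  have hT2 : 0 < T^2 := by positivity
  have hT4 : 0 < T^4 := by positivity
  have hT6 : 0 < T^6 := by positivity
  have e6 : T^6 = T^2 * T^4 := by ring
  have hT3N : 0 < T^(3*N) := by positivity
  have hb2pos : 0 < b2 := by linarith
  have hw1pos : 0 < w1 := lt_of_lt_of_le hT6 hw1l
  have hb2w1 : 0 < b2 * w1 := by positivity
  have hprod : b2 * w1 ≤ T^2 * T^(3*N) := by
    have h2 : b2 * w1 ≤ (6 * T^N) * (2 * T^6) := mul_le_mul hb2u hw1u hw1pos.le (by linarith)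
    have h3 : (6 * T^N) * (2 * T^6) ≤ T^2 * T^(3*N) := by
      rw [e5, e6]
      have : 0 < T^N * (T^2 * T^4) := by positivity
      nlinarith
    linarith
  rw [e4] at hZl hZu
  generalize T^(3*N) = Q at *
  generalize T^2 = P at *
  have hw2pos : 0 < w2 := by
    by_contra hneg
    push Not at hneg
    have : b1 * w2 ≤ 0 := mul_nonpos_of_nonneg_of_nonpos hb1pos.le hneg
    have : 0 < P * Q := by positivity
    linarith
  constructor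
  · have h2 : b1 * w2 ≤ (2 * P) * w2 := mul_le_mul_of_nonneg_right hb1u hw2pos.le
    have h3 : P * Q ≤ P * (2 * w2) := by linarith
    exact le_of_mul_le_mul_left h3 hT2
  · have h1 : P * w2 ≤ b1 * w2 := mul_le_mul_of_nonneg_right hb1l hw2pos.le
    have h7 : P * w2 ≤ P * (6 * Q) := by linarith
    exact le_of_mul_le_mul_left h7 hT2

lemma step (N : ℕ) (hN : 5 ≤ N) (T : ℤ) (hT : 100 ≤ T) (S : St) (h : Inv N T S) :
    ∃ S' : St, ∃ k : ℕ, ∃ v0 v1 v2 : ℤ, Inv N (T^3) S' ∧ Rel N T S S' k v0 v1 v2 := by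
  obtain ⟨hdet, hb1l, hb1u, hb2l, hb2u, hzl, hzu⟩ := h
  have hTpos : 0 < T := by linarith
  have hT1 : 1 ≤ T := by linarith
  -- the number n
  have hM : 1 ≤ (T^(N+1)).toNat := by
    have : 0 < T^(N+1) := by positivity
    omega
  obtain ⟨k, hk1, hk2⟩ := exists_fib _ hM
  have hcast : (((T^(N+1)).toNat : ℕ) : ℤ) = T^(N+1) := Int.toNat_of_nonneg (by positivity)
  obtain ⟨n, hn⟩ : ∃ n : ℤ, n = (Nat.fib (k+1) : ℤ) := ⟨_, rfl⟩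
  obtain ⟨r, hr⟩ : ∃ r : ℤ, r = (Nat.fib k : ℤ) := ⟨_, rfl⟩
  have hnl : T^(N+1) ≤ n := by rw [← hcast, hn]; exact_mod_cast hk1
  have hnu : n ≤ 2 * T^(N+1) := by rw [← hcast, hn]; exact_mod_cast hk2
  have hr0 : 0 ≤ r := by rw [hr]; positivity
  have hrn : r ≤ n := by rw [hn, hr]; exact_mod_cast Nat.fib_le_fib_succ
  -- coprimality
  have hcop : IsCoprime n r := by
    have := (Nat.fib_coprime_fib_succ k).symm
    rw [hn, hr]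
    exact Nat.isCoprime_iff_coprime.mpr this
  obtain ⟨α, γ, hαγ⟩ := hcop
  -- C'
  obtain ⟨W, hW⟩ : ∃ W : ℤ, W = S.b1 * S.c2 - S.b2 * S.c1 := ⟨_, rfl⟩
  obtain ⟨cc, hcc⟩ : ∃ cc : ℤ, cc = (W - T^(2*N+1)) / S.z0 := ⟨_, rfl⟩
  obtain ⟨rem, hrem⟩ : ∃ rem : ℤ, rem = (W - T^(2*N+1)) % S.z0 := ⟨_, rfl⟩
  have hdiv : W - T^(2*N+1) = S.z0 * cc + rem := by
    rw [hcc, hrem]; exact (Int.mul_ediv_add_emod _ _).symm
  have hrem0 : 0 ≤ rem := by rw [hrem]; exact Int.emod_nonneg _ hzl.ne'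
  have hremD : rem < S.z0 := by rw [hrem]; exact Int.emod_lt_of_pos _ hzl
  clear hcc hrem
  obtain ⟨c0', hc0'⟩ : ∃ x : ℤ, x = S.c0 + cc * S.a0 := ⟨_, rfl⟩
  obtain ⟨c1', hc1'⟩ : ∃ x : ℤ, x = S.c1 + cc * S.a1 := ⟨_, rfl⟩
  obtain ⟨c2', hc2'⟩ : ∃ x : ℤ, x = S.c2 + cc * S.a2 := ⟨_, rfl⟩
  obtain ⟨v0, hv0⟩ : ∃ x : ℤ, x = S.b1 * c2' - S.b2 * c1' := ⟨_, rfl⟩
  obtain ⟨v1, hv1⟩ : ∃ x : ℤ, x = S.b2 * c0' - S.b0 * c2' := ⟨_, rfl⟩
  obtain ⟨v2, hv2⟩ : ∃ x : ℤ, x = S.b0 * c1' - S.b1 * c0' := ⟨_, rfl⟩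
  have hv0' : v0 = T^(2*N+1) + rem := by
    have : v0 = W - S.z0 * cc := by
      rw [hv0, hc2', hc1', hW, St.z0]; ring
    linarith
  -- w'
  have hb1pos : 0 < S.b1 := lt_of_lt_of_le (by positivity) hb1l
  obtain ⟨q, hq⟩ : ∃ x : ℤ, x = (n * c1' - r * S.a1 - T^6) / S.b1 := ⟨_, rfl⟩
  obtain ⟨rem2, hrem2⟩ : ∃ x : ℤ, x = (n * c1' - r * S.a1 - T^6) % S.b1 := ⟨_, rfl⟩
  have hdiv2 : n * c1' - r * S.a1 - T^6 = S.b1 * q + rem2 := by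
    rw [hq, hrem2]; exact (Int.mul_ediv_add_emod _ _).symm
  have hrem20 : 0 ≤ rem2 := by rw [hrem2]; exact Int.emod_nonneg _ hb1pos.ne'
  have hrem2b : rem2 < S.b1 := by rw [hrem2]; exact Int.emod_lt_of_pos _ hb1pos
  clear hq hrem2
  obtain ⟨w0, hw0⟩ : ∃ x : ℤ, x = n * c0' - r * S.a0 - q * S.b0 := ⟨_, rfl⟩
  obtain ⟨w1, hw1⟩ : ∃ x : ℤ, x = n * c1' - r * S.a1 - q * S.b1 := ⟨_, rfl⟩
  obtain ⟨w2, hw2⟩ : ∃ x : ℤ, x = n * c2' - r * S.a2 - q * S.b2 := ⟨_, rfl⟩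
  have hw1' : w1 = T^6 + rem2 := by rw [hw1]; linarith
  have hz0' : S.b1 * w2 - S.b2 * w1 = n * v0 + r * S.z0 := by
    rw [hw1, hw2, hv0, St.z0]; ring
  have hz1' : S.b2 * w0 - S.b0 * w2 = n * v1 + r * S.z1 := by
    rw [hw0, hw2, hv1, St.z1]; ring
  have hz2' : S.b0 * w1 - S.b1 * w0 = n * v2 + r * S.z2 := by
    rw [hw0, hw1, hv2, St.z2]; ring
  have hva : v0 * S.a0 + v1 * S.a1 + v2 * S.a2 = 1 := by
    rw [← hdet, St.dt, St.z0, St.z1, St.z2, hv0, hv1, hv2, hc0', hc1', hc2']; ring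
  have hvb : v0 * S.b0 + v1 * S.b1 + v2 * S.b2 = 0 := by
    rw [hv0, hv1, hv2]; ring
  have hvc : v0 * c0' + v1 * c1' + v2 * c2' = 0 := by
    rw [hv0, hv1, hv2]; ring
  have hza : S.z0 * S.a0 + S.z1 * S.a1 + S.z2 * S.a2 = 0 := by
    rw [St.z0, St.z1, St.z2]; ring
  have hzc : S.z0 * c0' + S.z1 * c1' + S.z2 * c2' = 1 := by
    rw [← hdet, St.dt, hc0', hc1', hc2', St.z0, St.z1, St.z2]; ring
  have hzv2 : S.z0 * v1 - S.z1 * v0 = S.b2 := by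
    have : S.z0 * v1 - S.z1 * v0 = S.b2 * S.dt := by
      rw [St.dt, hv1, hv0, hc0', hc1', hc2', St.z0, St.z1, St.z2]; ring
    rw [this, hdet, mul_one]
  have hzv1 : S.z2 * v0 - S.z0 * v2 = S.b1 := by
    have : S.z2 * v0 - S.z0 * v2 = S.b1 * S.dt := by
      rw [St.dt, hv2, hv0, hc0', hc1', hc2', St.z0, St.z1, St.z2]; ring
    rw [this, hdet, mul_one]
  -- size estimates
  obtain ⟨hDl', hDu'⟩ := sizeD N hN T hT n r S.z0 rem hzl hzu hrem0 hremD hnl hnu hr0 hrn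
  rw [← hv0'] at hDl' hDu'
  have hw1l : T^6 ≤ w1 := by linarith
  have hw1u : w1 ≤ 2 * T^6 := by
    have h1 : T^6 = T^2 * T^4 := by ring
    have h2 : (2:ℤ) ≤ T^4 := by
      calc (2:ℤ) ≤ T^1 := by linarith
        _ ≤ T^4 := pow_le_pow_right₀ hT1 (by omega)
    have h3 : 0 < T^2 := by positivity
    have h4 : T^2 * 2 ≤ T^6 := by rw [h1]; exact mul_le_mul_of_nonneg_left h2 h3.le
    linarith
  obtain ⟨hw2l, hw2u⟩ := sizeW N hN T hT S.b1 S.b2 w1 w2 _ hb1l hb1u hb2l hb2u hw1l hw1u hz0' hDl' hDu'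
  have hdet' : (n * v0 + r * S.z0) * (α * S.a0 + γ * c0') + (n * v1 + r * S.z1) * (α * S.a1 + γ * c1') +
        (n * v2 + r * S.z2) * (α * S.a2 + γ * c2') = 1 := by
    have : (n * v0 + r * S.z0) * (α * S.a0 + γ * c0') + (n * v1 + r * S.z1) * (α * S.a1 + γ * c1') +
        (n * v2 + r * S.z2) * (α * S.a2 + γ * c2') =
        n * α * (v0 * S.a0 + v1 * S.a1 + v2 * S.a2) + n * γ * (v0 * c0' + v1 * c1' + v2 * c2')
        + r * α * (S.z0 * S.a0 + S.z1 * S.a1 + S.z2 * S.a2)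
        + r * γ * (S.z0 * c0' + S.z1 * c1' + S.z2 * c2') := by ring
    rw [this, hva, hvc, hza, hzc]
    linarith
  -- assemble
  refine ⟨⟨S.b0, S.b1, S.b2, w0, w1, w2, α * S.a0 + γ * c0', α * S.a1 + γ * c1',
    α * S.a2 + γ * c2'⟩, k, v0, v1, v2, ⟨?_, ?_, ?_, ?_, ?_, ?_, ?_⟩,
    ⟨rfl, rfl, rfl, hn ▸ hnl, hn ▸ hnu, ?_, ?_, ?_, hva, hvb, hzv2, hzv1, ?_, ?_⟩⟩
  · simp only [St.dt]
    rw [← hdet', ← hz0', ← hz1', ← hz2']
    rfl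
  · show (T^3)^2 ≤ w1
    calc (T^3)^2 = T^6 := by ring
      _ ≤ w1 := hw1l
  · show w1 ≤ 2 * (T^3)^2
    calc w1 ≤ 2 * T^6 := hw1u
      _ = 2 * (T^3)^2 := by ring
  · show (T^3)^N ≤ 2 * w2
    rw [← pow_mul]; exact hw2l
  · show w2 ≤ 6 * (T^3)^N
    rw [← pow_mul]; exact hw2u
  · show 0 < S.b1 * w2 - S.b2 * w1
    rw [hz0']; exact lt_of_lt_of_le (by positivity) hDl'
  · show S.b1 * w2 - S.b2 * w1 ≤ (T^3)^(N+1)
    rw [hz0', ← pow_mul]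
    have e : T^(3*(N+1)) = T^(3*N+2) * T := by rw [← pow_succ]; congr 1
    rw [e]
    have h1 : 0 < T^(3*N+2) := by positivity
    have h2 : T^(3*N+2) * 5 ≤ T^(3*N+2) * T := mul_le_mul_of_nonneg_left (by linarith) h1.le
    linarith
  · rw [← hn, ← hr]; exact hz0'
  · rw [← hn, ← hr]; exact hz1'
  · rw [← hn, ← hr]; exact hz2'
  · show T^(3*N+2) ≤ S.b1 * w2 - S.b2 * w1
    rw [hz0']; exact hDl'
  · show S.b1 * w2 - S.b2 * w1 ≤ 5 * T^(3*N+2)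
    rw [hz0']; exact hDu'

end Pool.Agent.Helper8.Thurn
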