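import Mathlib
import Pool.Agent.Helper8.Thurn2

/-! The sequence, its limit, and real estimates -/

namespace Pool.Agent.Helper8.Thurn

lemma exists_seq (N : ℕ) (hN : 5 ≤ N) (T0 : ℤ) (hT : 100 ≤ T0) :
    ∃ S : ℕ → St, ∃ k : ℕ → ℕ, ∃ v0 v1 v2 : ℕ → ℤ, ∀ i, Inv N (T0^(3^i)) (S i) ∧
      Rel N (T0^(3^i)) (S i) (S (i+1)) (k i) (v0 i) (v1 i) (v2 i) := by
  classical
  have hT1 : 1 ≤ T0 := by linarith
  have hTi : ∀ i : ℕ, 100 ≤ T0^(3^i) := by
    intro i
    calc (100:ℤ) ≤ T0 := hT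
      _ = T0^1 := (pow_one _).symm
      _ ≤ T0^(3^i) := pow_le_pow_right₀ hT1 (Nat.one_le_pow _ _ (by norm_num))
  let S0 : St := ⟨0, 1, 0, 1, T0^2, T0^N, 0, 0, -1⟩
  have hS0 : Inv N (T0^(3^0)) S0 := by
    have hT2 : 0 < T0^2 := by positivity
    have hTN : 0 < T0^N := by positivity
    have hz : S0.z0 = T0^N := by simp [S0, St.z0]
    refine ⟨?_, ?_, ?_, ?_, ?_, ?_, ?_⟩
    · simp [S0, St.dt, St.z0, St.z1, St.z2]
    · simp [S0]
    · simp only [pow_zero, pow_one, S0]; linarith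
    · simp only [pow_zero, pow_one, S0]; linarith
    · simp only [pow_zero, pow_one, S0]; linarith
    · rw [hz]; exact hTN
    · rw [hz]
      simp only [pow_zero, pow_one]
      exact pow_le_pow_right₀ hT1 (by omega)
  let f : ℕ → St := fun i => Nat.rec S0
    (fun i S => if h : Inv N (T0^(3^i)) S then Classical.choose (step N hN _ (hTi i) S h) else S) i
  have hf0 : f 0 = S0 := rfl
  have hfs : ∀ i, f (i+1) = if h : Inv N (T0^(3^i)) (f i) then
      Classical.choose (step N hN _ (hTi i) (f i) h) else f i := fun i => rfl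
  have hpow : ∀ i : ℕ, (T0^(3^i))^3 = T0^(3^(i+1)) := by
    intro i; rw [← pow_mul, pow_succ]
  have hinv : ∀ i, Inv N (T0^(3^i)) (f i) := by
    intro i
    induction i with
    | zero => rw [hf0]; exact hS0
    | succ i ih =>
      rw [hfs i, dif_pos ih]
      obtain ⟨k, v0, v1, v2, h1, h2⟩ := Classical.choose_spec (step N hN _ (hTi i) (f i) ih)
      rw [← hpow]
      exact h1
  have hrel : ∀ i, ∃ k : ℕ, ∃ v0 v1 v2 : ℤ, Rel N (T0^(3^i)) (f i) (f (i+1)) k v0 v1 v2 := by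
    intro i
    rw [hfs i, dif_pos (hinv i)]
    obtain ⟨k, v0, v1, v2, h1, h2⟩ := Classical.choose_spec (step N hN _ (hTi i) (f i) (hinv i))
    exact ⟨k, v0, v1, v2, h2⟩
  choose k v0 v1 v2 hr using hrel
  exact ⟨f, k, v0, v1, v2, fun i => ⟨hinv i, hr i⟩⟩

lemma exists_limit (D p : ℕ → ℤ) (δ : ℕ → ℝ) (hD : ∀ i, 0 < D i)
    (hmono : ∀ i, D i ≤ D (i+1)) (hδ : ∀ i, 2 * δ (i+1) ≤ δ i) (hδ0 : ∀ i, 0 ≤ δ i)
    (h : ∀ i, |((D i * p (i+1) - D (i+1) * p i : ℤ) : ℝ)| ≤ δ i * D (i+1)) :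
    ∃ θ : ℝ, ∀ i, |(p i : ℝ) - D i * θ| ≤ 2 * δ i := by
  have hDR : ∀ i, (0:ℝ) < D i := fun i => by exact_mod_cast hD i
  have hmR : ∀ i, (D i : ℝ) ≤ D (i+1) := fun i => by exact_mod_cast hmono i
  let f : ℕ → ℝ := fun i => p i / D i - 2 * δ i / D i
  let g : ℕ → ℝ := fun i => p i / D i + 2 * δ i / D i
  have key : ∀ i, |(p (i+1) : ℝ) / D (i+1) - p i / D i| ≤ δ i / D i := by
    intro i
    have h1 := h i
    have h2 : (p (i+1) : ℝ) / D (i+1) - p i / D i =
        ((D i * p (i+1) - D (i+1) * p i : ℤ) : ℝ) / (D i * D (i+1)) := by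
      have := (hDR i).ne'
      have := (hDR (i+1)).ne'
      push_cast
      field_simp
    rw [h2, abs_div, abs_of_pos (mul_pos (hDR i) (hDR (i+1))),
      div_le_div_iff₀ (mul_pos (hDR i) (hDR (i+1))) (hDR i)]
    have := mul_le_mul_of_nonneg_right h1 (hDR i).le
    linarith
  have key2 : ∀ i, 2 * δ (i+1) / D (i+1) ≤ δ i / D i := by
    intro i
    calc 2 * δ (i+1) / D (i+1) ≤ δ i / D (i+1) := by
          apply div_le_div_of_nonneg_right (hδ i) (hDR (i+1)).le
      _ ≤ δ i / D i := by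
          apply div_le_div_of_nonneg_left (hδ0 i) (hDR i) (hmR i)
  have hsplit : ∀ i, 2 * δ i / D i = δ i / D i + δ i / D i := by intro i; ring
  have hf : Monotone f := by
    apply monotone_nat_of_le_succ
    intro i
    have h1 := (abs_le.mp (key i)).1
    have h2 := key2 i
    simp only [f]
    rw [hsplit i]
    linarith
  have hg : Antitone g := by
    apply antitone_nat_of_succ_le
    intro i
    have h1 := (abs_le.mp (key i)).2
    have h2 := key2 i
    simp only [g]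
    rw [hsplit i]
    linarith
  have hfg : ∀ i, f i ≤ g i := by
    intro i
    have : 0 ≤ 2 * δ i / D i := by
      have := hδ0 i
      have := hDR i
      positivity
    simp only [f, g]
    linarith
  refine ⟨⨆ i, f i, fun i => ?_⟩
  have hmem := hf.ciSup_mem_iInter_Icc_of_antitone hg hfg
  have hi := Set.mem_iInter.mp hmem i
  obtain ⟨hl, hu⟩ := hi
  set θ := ⨆ i, f i
  have h1 : (p i : ℝ) - 2 * δ i ≤ D i * θ := by
    have := mul_le_mul_of_nonneg_left hl (hDR i).le
    have e : (D i : ℝ) * f i = p i - 2 * δ i := by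
      simp only [f]
      have := (hDR i).ne'
      field_simp
    linarith
  have h2 : D i * θ ≤ (p i : ℝ) + 2 * δ i := by
    have := mul_le_mul_of_nonneg_left hu (hDR i).le
    have e : (D i : ℝ) * g i = p i + 2 * δ i := by
      simp only [g]
      have := (hDR i).ne'
      field_simp
    linarith
  rw [abs_le]
  constructor <;> linarith

lemma case1 (t A D0 D1 n X L : ℝ) (j j' : ℤ) (ht : 100 ≤ t) (hA : t ≤ A) (hD0 : 0 < D0)
    (hD0A : D0 ≤ A) (hD1 : 0 < D1) (hD1A : D1 * t ≤ 5 * A^3) (hn : A ≤ n) (hX : A ≤ 96 * X)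
    (hj : |(j:ℝ) - D0 * L| ≤ 48 * X / A) (hj' : |(j':ℝ) - D1 * L| ≤ 1/2) (hj'0 : j' ≠ 0)
    (hF : (n ≤ |(j':ℝ)|) ∨ (n ≤ 6 * (|(j':ℝ)| * |(j:ℝ)|))) :
    t ≤ 10^6 * (X^2 * |L|) := by
  have hApos : 0 < A := by linarith
  have hXpos : 0 < X := by linarith
  have hj'1 : (1:ℝ) ≤ |(j':ℝ)| := by
    have : 1 ≤ |j'| := Int.one_le_abs hj'0
    exact_mod_cast this
  have hL1 : |(j':ℝ)| ≤ 2 * (D1 * |L|) := by
    have h1 : |(j':ℝ)| - |D1 * L| ≤ |(j':ℝ) - D1 * L| := abs_sub_abs_le_abs_sub _ _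
    rw [abs_mul, abs_of_pos hD1] at h1
    linarith
  have hL0 : 0 ≤ |L| := abs_nonneg L
  have hX2 : A^2 ≤ 9216 * X^2 := by nlinarith
  generalize hLL : |L| = M at *
  rcases hF with hF | hF
  · have h1 : A ≤ 2 * (D1 * M) := by linarith
    have h2 : A * t ≤ 10 * A^3 * M := by nlinarith
    have h3 : A * t ≤ A * (10 * A^2 * M) := by nlinarith
    have h4 : t ≤ 10 * A^2 * M := le_of_mul_le_mul_left h3 hApos
    have h5 : A^2 * M ≤ 9216 * X^2 * M := mul_le_mul_of_nonneg_right hX2 hL0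
    have h6 : 0 ≤ X^2 * M := by positivity
    nlinarith
  · have hjn : 0 ≤ |(j:ℝ)| := abs_nonneg _
    have h1 : A ≤ 12 * (D1 * M * |(j:ℝ)|) := by
      have : |(j':ℝ)| * |(j:ℝ)| ≤ 2 * (D1 * M) * |(j:ℝ)| := mul_le_mul_of_nonneg_right hL1 hjn
      linarith
    have hMj : 0 ≤ M * |(j:ℝ)| := by positivity
    have h2 : A * t ≤ A * (60 * A^2 * (M * |(j:ℝ)|)) := by
      have := mul_le_mul_of_nonneg_right hD1A hMj
      have h3 := mul_le_mul_of_nonneg_right h1 (by linarith : (0:ℝ) ≤ t)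
      nlinarith
    have h4 : t ≤ 60 * A^2 * (M * |(j:ℝ)|) := le_of_mul_le_mul_left h2 hApos
    by_cases hcase : |(j:ℝ)| * A ≤ 96 * X
    · have h5 : 60 * A^2 * (M * |(j:ℝ)|) = (60 * A * M) * (|(j:ℝ)| * A) := by ring
      have h6 : (60 * A * M) * (|(j:ℝ)| * A) ≤ (60 * A * M) * (96 * X) :=
        mul_le_mul_of_nonneg_left hcase (by positivity)
      have h7 : (60 * M * (96 * X)) * A ≤ (60 * M * (96 * X)) * (96 * X) :=
        mul_le_mul_of_nonneg_left hX (by positivity)
      have h8 : 0 ≤ X^2 * M := by positivity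
      nlinarith
    · push Not at hcase
      have h5 : 96 * X / A < |(j:ℝ)| := by rw [div_lt_iff₀ hApos]; exact hcase
      have h6 : 1 ≤ 96 * X / A := by rw [le_div_iff₀ hApos]; linarith
      have h7 : |(j:ℝ)| - D0 * M ≤ 48 * X / A := by
        have h1 : |(j:ℝ)| - |D0 * L| ≤ |(j:ℝ) - D0 * L| := abs_sub_abs_le_abs_sub _ _
        rw [abs_mul, abs_of_pos hD0, hLL] at h1
        linarith
      have h8 : 48 * X / A = (96 * X / A) / 2 := by ring
      have h9 : 1/2 ≤ D0 * M := by linarith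
      have h10 : D0 * M ≤ A * M := mul_le_mul_of_nonneg_right hD0A hL0
      have h11 : A * (1/2) ≤ A * (A * M) := mul_le_mul_of_nonneg_left (by linarith) hApos.le
      have h12 : A^2 * M ≤ 9216 * X^2 * M := mul_le_mul_of_nonneg_right hX2 hL0
      have h13 : 0 ≤ X^2 * M := by positivity
      nlinarith

/-- the estimate for multiples of one vector -/
lemma rpow_est (ρ a t : ℝ) (N : ℕ) (h1 : 1 < ρ) (h2 : ρ < 7/4) (hN : 18 ≤ (7 - 4*ρ) * N)
    (ht : 100 ≤ t) (ha : 1 ≤ a) (hab : a * t^N / 2 ≤ (2 * a * t^2) ^ ρ) :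
    40 * (t^N)^4 * t^4 ≤ a^3 := by
  by_contra hcon
  push Not at hcon
  have htpos : 0 < t := by linarith
  have hapos : 0 < a := by linarith
  have hα : 0 ≤ Real.log a := Real.log_nonneg ha
  have hτ : 4 ≤ Real.log t := by
    rw [Real.le_log_iff_exp_le htpos]
    have : Real.exp 4 ≤ 100 := by
      have h3 : Real.exp 4 = (Real.exp 1)^4 := by rw [← Real.exp_nat_mul]; norm_num
      rw [h3]
      have := Real.exp_one_lt_d9
      have h0 : 0 < Real.exp 1 := Real.exp_pos 1
      calc (Real.exp 1)^4 ≤ (2.7182818286:ℝ)^4 := by gcongr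
        _ ≤ 100 := by norm_num
    linarith
  have hlog2 : Real.log 2 < 0.6931471808 := Real.log_two_lt_d9
  have hlog2p : 0 < Real.log 2 := Real.log_pos (by norm_num)
  have hl1 : Real.log (a^3) < Real.log (40 * (t^N)^4 * t^4) :=
    Real.log_lt_log (by positivity) hcon
  have e1 : Real.log (a^3) = 3 * Real.log a := by rw [Real.log_pow]; norm_num
  have e2 : Real.log (40 * (t^N)^4 * t^4) = Real.log 40 + (4*N + 4) * Real.log t := by
    rw [Real.log_mul (by positivity) (by positivity), Real.log_mul (by norm_num) (by positivity),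
      Real.log_pow, Real.log_pow, Real.log_pow]
    push_cast; ring
  have hl2 : Real.log (a * t^N / 2) ≤ Real.log ((2 * a * t^2) ^ ρ) :=
    Real.log_le_log (by positivity) hab
  have e3 : Real.log (a * t^N / 2) = Real.log a + N * Real.log t - Real.log 2 := by
    rw [Real.log_div (by positivity) (by norm_num), Real.log_mul (by positivity) (by positivity),
      Real.log_pow]
  have e4 : Real.log ((2 * a * t^2) ^ ρ) = ρ * (Real.log 2 + Real.log a + 2 * Real.log t) := by
    rw [Real.log_rpow (by positivity), Real.log_mul (by positivity) (by positivity),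
      Real.log_mul (by norm_num) (by positivity), Real.log_pow]
    push_cast; ring
  have hlog40 : Real.log 40 ≤ 6 * Real.log 2 := by
    have : Real.log 40 ≤ Real.log (2^6) := Real.log_le_log (by norm_num) (by norm_num)
    rw [Real.log_pow] at this
    push_cast at this
    linarith
  rw [e1, e2] at hl1
  rw [e3, e4] at hl2
  generalize Real.log a = α at *
  generalize Real.log t = τ at *
  generalize Real.log 2 = l at *
  generalize Real.log 40 = m at *
  generalize (N:ℝ) = n at *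
  have h3 : (ρ-1) * (3 * α) ≤ (ρ - 1) * (m + (4*n+4)*τ) :=
    mul_le_mul_of_nonneg_left hl1.le (by linarith)
  have h4 : (ρ - 1) * m ≤ (ρ-1) * (6 * l) := mul_le_mul_of_nonneg_left hlog40 (by linarith)
  have h5 : 18 * τ ≤ (7 - 4*ρ) * n * τ := mul_le_mul_of_nonneg_right hN (by linarith)
  nlinarith

end Pool.Agent.Helper8.Thurn
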