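import Pool.Agent.Helper8.OC.Fin
import Pool.Agent.Helper61.Cal.Pos

/-!
# MP_c4349a_gt: calibers with prescribed order types (the proof)

`β` is an uncountable strong limit cardinal of cofinality `ω` (under the generalised continuum
hypothesis: every uncountable cardinal of cofinality `ω`), `X` a space whose cellular families have
size at most `κ < β`. Among any `β⁺` non-empty open subsets of `X`, indexed by the ordinals below
`β⁺`, one finds for every ordinal `ε < β⁺` a centred subfamily whose set of indices has order type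
`ε`; if `X` is compact Hausdorff then a subfamily with a common point.
-/

set_option autoImplicit false

namespace Pool.Agent.Helper8.OrdC

open Set Cardinal Order

/-- Every family of pairwise disjoint non-empty open subsets of `X` has at most `κ` members. -/
def CellLe (X : Type) [TopologicalSpace X] (κ : Cardinal.{0}) : Prop :=
  ∀ S : Set (Set X), (∀ u ∈ S, IsOpen u ∧ u.Nonempty) → S.PairwiseDisjoint id → #S ≤ κ

private theorem core (β κ : Cardinal.{0}) (hβ : ℵ₀ < β) (hcof : β.ord.cof = ℵ₀)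
    (hlim : β.IsStrongLimit ∨
      ∀ γ : Cardinal.{0}, ℵ₀ ≤ γ → (2 : Cardinal.{0}) ^ γ = succ γ)
    (hκ : κ < β) (X : Type) [TopologicalSpace X] (hX : CellLe X κ)
    (U : (succ β).ord.ToType → Set X) (hU : ∀ ξ, IsOpen (U ξ) ∧ (U ξ).Nonempty)
    (ε : Ordinal.{0}) (hε : ε < (succ β).ord) :
    ∃ b : ε.ToType → (succ β).ord.ToType, StrictMono b ∧
      ∀ F : Finset ε.ToType, (⋂ i ∈ F, U (b i)).Nonempty := by
  classical
  have hβl : β.IsStrongLimit := by
    rcases hlim with h | h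
    · exact h
    · exact ⟨(aleph0_pos.trans hβ).ne', fun κ hκ => Helper61.Cal.pow_lt_of_gch h hβ hcof hκ⟩
  have hreg : (succ β).IsRegular := isRegular_succ hβ.le
  have hI : ∀ w : (succ β).ord.ToType, #(Iic w) ≤ β := fun w =>
    lt_succ_iff.1 (Helper61.Cal.mk_Iic_lt hreg.aleph0_le w)
  have hB : ∀ S : Set (succ β).ord.ToType, #S ≤ β → ∃ w, ∀ s ∈ S, s < w := by
    intro S hS
    by_contra hcon
    push Not at hcon
    have h1 : IsCofinal S := fun w => by
      obtain ⟨s, hs, hws⟩ := hcon w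
      exact ⟨s, hs, hws⟩
    have h2 := Order.cof_le h1
    rw [Ordinal.cof_toType, hreg.cof_ord] at h2
    exact absurd (h2.trans hS) (not_le.2 (lt_succ β))
  obtain ⟨e, he⟩ : ∃ e : (succ β).ord.ToType, e = Ordinal.ToType.mk ⟨ε, hε⟩ := ⟨_, rfl⟩
  -- decomposition of the indices below `e`
  obtain ⟨A, hA1, hA2⟩ := Helper61.Cal.exists_decomp hβ.le hcof (Iio e)
    ((mk_le_mk_of_subset Iio_subset_Iic_self).trans (hI e))
  have hlev : ∀ y : (succ β).ord.ToType, ∃ n, y < e → y ∈ A n := by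
    intro y
    by_cases hy : y < e
    · obtain ⟨n, hn⟩ := mem_iUnion.1 (hA1 hy)
      exact ⟨n, fun _ => hn⟩
    · exact ⟨0, fun h => absurd h hy⟩
  choose lev hlev using hlev
  have hfin : ∀ n, #{y | y < e ∧ lev y ≤ n} < β := by
    intro n
    induction n with
    | zero =>
      refine (mk_le_mk_of_subset ?_).trans_lt (hA2 0)
      rintro y ⟨h1, h2⟩
      have h3 := hlev y h1
      rwa [Nat.le_zero.1 h2] at h3
    | succ n ih =>
      have h1 : {y | y < e ∧ lev y ≤ n + 1} ⊆ {y | y < e ∧ lev y ≤ n} ∪ A (n + 1) := by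
        rintro y ⟨h1, h2⟩
        rcases Nat.lt_or_ge (lev y) (n + 1) with h | h
        · exact Or.inl ⟨h1, Nat.lt_succ_iff.1 h⟩
        · have h3 := hlev y h1
          rw [le_antisymm h2 h] at h3
          exact Or.inr h3
      exact (mk_le_mk_of_subset h1).trans_lt ((mk_union_le _ _).trans_lt
        (add_lt_of_lt hβ.le ih (hA2 _)))
  have hsucc : ∀ γ < β, succ γ < β := fun γ hγ =>
    (succ_le_of_lt (cantor γ)).trans_lt (hβl.isStrongPrelimit hγ)
  obtain ⟨μ, hμ⟩ : ∃ μ : ℕ → Cardinal.{0},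
      μ = fun n => succ (max (max κ ℵ₀) #{y | y < e ∧ lev y ≤ n}) := ⟨_, rfl⟩
  have hμβ : ∀ n, μ n < β := fun n => by
    rw [hμ]
    exact hsucc _ (max_lt (max_lt hκ hβ) (hfin n))
  have hμr : ∀ n, (μ n).IsRegular := fun n => by
    rw [hμ]
    exact isRegular_succ ((le_max_right _ _).trans (le_max_left _ _))
  have hκμ : ∀ n, κ < μ n := fun n => by
    rw [hμ]
    exact lt_succ_of_le ((le_max_left _ _).trans (le_max_left _ _))
  have hμ0 : ∀ n, ℵ₀ < μ n := fun n => by
    rw [hμ]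
    exact lt_succ_of_le ((le_max_right _ _).trans (le_max_left _ _))
  have hμl : ∀ n, #{y | y < e ∧ lev y ≤ n} < μ n := fun n => by
    rw [hμ]
    exact lt_succ_of_le (le_max_right _ _)
  obtain ⟨b, hb1, hb2⟩ := Helper8.OC.centred hβl hβ μ hμr hμβ hκμ hμ0 hI hB hX
    (fun i => (hU i).1) (fun i => (hU i).2) e lev hμl
  -- the order embedding of `ε`
  obtain ⟨c, hc1, hc2⟩ : ∃ c : ε.ToType → (succ β).ord.ToType, StrictMono c ∧
      ∀ i, c i < e := by
    refine ⟨fun i => Ordinal.ToType.mk ⟨(Ordinal.ToType.mk.symm i).1,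
      mem_Iio.2 (lt_trans (mem_Iio.1 (Ordinal.ToType.mk.symm i).2) hε)⟩, fun i j hij => ?_,
      fun i => ?_⟩
    · refine Ordinal.ToType.mk.lt_iff_lt.2 ?_
      exact Ordinal.ToType.mk.symm.lt_iff_lt.2 hij
    · rw [he]
      exact Ordinal.ToType.mk.lt_iff_lt.2 (Ordinal.ToType.mk.symm i).2
  refine ⟨fun i => b (c i), fun i j hij => hb1 (hc2 i) (hc2 j) (hc1 hij), fun F => ?_⟩
  have h1 := hb2 (F.image fun i => b (c i)) (by
    intro w hw
    rw [Finset.coe_image] at hw
    obtain ⟨i, _, rfl⟩ := hw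
    exact ⟨c i, hc2 i, rfl⟩)
  obtain ⟨x, hx⟩ := h1
  refine ⟨x, ?_⟩
  unfold Helper8.OC.VV at hx
  rw [mem_iInter₂] at hx ⊢
  exact fun i hi => hx (b (c i)) (Finset.mem_image_of_mem _ hi)

/-- Let `β` be an uncountable cardinal of cofinality `ω`. Assume that `β` is a strong limit or the
generalised continuum hypothesis. Let `κ < β` and let `X` be a space whose families of pairwise
disjoint non-empty open sets have at most `κ` members. Let `U ξ`, `ξ < β⁺`, be non-empty open
subsets of `X`, and let `ε < β⁺` be an ordinal. Then there is a strictly increasing map `b` from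
`ε` to `β⁺` such that the sets `U (b i)`, `i < ε`, are centred, and if `X` is compact Hausdorff then
there is one such that the sets `U (b i)`, `i < ε`, have a common point. -/
theorem main (β κ : Cardinal.{0}) (hβ : ℵ₀ < β) (hcof : β.ord.cof = ℵ₀)
    (hlim : β.IsStrongLimit ∨
      ∀ γ : Cardinal.{0}, ℵ₀ ≤ γ → (2 : Cardinal.{0}) ^ γ = succ γ)
    (hκ : κ < β) (X : Type) [TopologicalSpace X] (hX : CellLe X κ)
    (U : (succ β).ord.ToType → Set X) (hU : ∀ ξ, IsOpen (U ξ) ∧ (U ξ).Nonempty)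
    (ε : Ordinal.{0}) (hε : ε < (succ β).ord) :
    (∃ b : ε.ToType → (succ β).ord.ToType, StrictMono b ∧
      ∀ F : Finset ε.ToType, (⋂ i ∈ F, U (b i)).Nonempty) ∧
    (CompactSpace X → T2Space X → ∃ b : ε.ToType → (succ β).ord.ToType, StrictMono b ∧
      (⋂ i, U (b i)).Nonempty) := by
  refine ⟨core β κ hβ hcof hlim hκ X hX U hU ε hε, fun _ _ => ?_⟩
  have hV : ∀ ξ, ∃ V : Set X, IsOpen V ∧ V.Nonempty ∧ closure V ⊆ U ξ := by
    intro ξ
    obtain ⟨x, hx⟩ := (hU ξ).2
    obtain ⟨V, hV1, hV2, hV3⟩ := normal_exists_closure_subset (isClosed_singleton (x := x))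
      (hU ξ).1 (singleton_subset_iff.2 hx)
    exact ⟨V, hV1, ⟨x, hV2 rfl⟩, hV3⟩
  choose V hV1 hV2 hV3 using hV
  obtain ⟨b, hb1, hb2⟩ := core β κ hβ hcof hlim hκ X hX V (fun ξ => ⟨hV1 ξ, hV2 ξ⟩) ε hε
  refine ⟨b, hb1, ?_⟩
  have h1 : (⋂ i, closure (V (b i))).Nonempty := by
    by_contra hcon
    rw [not_nonempty_iff_eq_empty] at hcon
    obtain ⟨F, hF⟩ := isCompact_univ.elim_finite_subfamily_closed
      (fun i : ε.ToType => closure (V (b i))) (fun i => isClosed_closure) (by rw [univ_inter, hcon])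
    rw [univ_inter] at hF
    obtain ⟨x, hx⟩ := hb2 F
    have h2 : x ∈ ⋂ i ∈ F, closure (V (b i)) := by
      rw [mem_iInter₂] at hx ⊢
      exact fun i hi => subset_closure (hx i hi)
    rw [hF] at h2
    exact h2
  obtain ⟨x, hx⟩ := h1
  refine ⟨x, ?_⟩
  rw [mem_iInter] at hx ⊢
  exact fun i => hV3 _ (hx i)

end Pool.Agent.Helper8.OrdC
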