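import Mathlib
import Pool.Agent.Helper8.Thurn3

/-! Case 2 of the main estimate -/

namespace Pool.Agent.Helper8.Thurn

/-- membership in the domain `Φ₀(ρ, 0)` for an integer point -/
def Dom (ρ y1 y2 : ℝ) : Prop := |y2| ≤ |y1| ^ ρ ∨ |y1| ≤ 1

/-- multiples of one vector -/
lemma case2b (ρ : ℝ) (h1 : 1 < ρ) (h2 : ρ < 7/4) (N : ℕ) (hN : 18 ≤ (7 - 4*ρ) * N)
    (t : ℝ) (ht : 100 ≤ t) (a : ℤ) (ha : a ≠ 0) (w1 w2 L X : ℝ)
    (hw1l : t^2 ≤ w1) (hw1u : w1 ≤ 2 * t^2) (hw2l : t^N ≤ 2 * w2)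
    (hL : |(a:ℝ)| ≤ 10 * (t^N)^6 * t^3 * |L|)
    (hX2 : |(a:ℝ) * w2| ≤ X)
    (hdom : Dom ρ (a * w1) (a * w2)) : t ≤ X^2 * |L| := by
  have ha1 : (1:ℝ) ≤ |(a:ℝ)| := by
    have : 1 ≤ |a| := Int.one_le_abs ha
    exact_mod_cast this
  have htpos : 0 < t := by linarith
  have hB : 0 < t^N := by positivity
  have hw1 : 0 < w1 := lt_of_lt_of_le (by positivity) hw1l
  have hw2 : 0 < w2 := by linarith
  have hL0 := abs_nonneg L
  rw [abs_mul, abs_of_pos hw2] at hX2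
  have hXB : |(a:ℝ)| * t^N / 2 ≤ X := by nlinarith
  have hdom' : |(a:ℝ)| * t^N / 2 ≤ (2 * |(a:ℝ)| * t^2) ^ ρ := by
    rcases hdom with h | h
    · rw [abs_mul, abs_mul, abs_of_pos hw1, abs_of_pos hw2] at h
      calc |(a:ℝ)| * t^N / 2 ≤ |(a:ℝ)| * w2 := by nlinarith
        _ ≤ (|(a:ℝ)| * w1) ^ ρ := h
        _ ≤ (2 * |(a:ℝ)| * t^2) ^ ρ := by
          apply Real.rpow_le_rpow (by positivity) _ (by linarith)
          nlinarith
    · exfalso
      rw [abs_mul, abs_of_pos hw1] at h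
      have : (1:ℝ) < t^2 := by nlinarith
      nlinarith
  have hcube := rpow_est ρ |(a:ℝ)| t N h1 h2 hN ht ha1 hdom'
  generalize |(a:ℝ)| = α at *
  generalize t^N = B at *
  generalize |L| = M at *
  have hαpos : 0 < α := by linarith
  have h3 : (α * B / 2)^2 ≤ X^2 := by
    apply pow_le_pow_left₀ (by positivity) hXB
  have h4 : (α * B / 2)^2 * M ≤ X^2 * M := mul_le_mul_of_nonneg_right h3 hL0
  have h5 : 10 * B^4 * t^3 * 4 * ((α * B / 2)^2 * M) = α^2 * (10 * B^6 * t^3 * M) := by ring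
  have h6 : α^2 * α ≤ α^2 * (10 * B^6 * t^3 * M) := mul_le_mul_of_nonneg_left hL (by positivity)
  have h7 : (10 * B^4 * t^3 * 4) * t ≤ (10 * B^4 * t^3 * 4) * ((α * B / 2)^2 * M) := by
    rw [h5]
    calc (10 * B^4 * t^3 * 4) * t = 40 * B^4 * t^4 := by ring
      _ ≤ α^3 := hcube
      _ = α^2 * α := by ring
      _ ≤ _ := h6
  have h8 : t ≤ (α * B / 2)^2 * M := le_of_mul_le_mul_left h7 (by positivity)
  linarith

/-- combinations of two consecutive vectors -/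
lemma case2a (ρ : ℝ) (h1 : 1 < ρ) (h2 : ρ < 7/4) (N : ℕ) (hN : 5 ≤ N)
    (t : ℝ) (ht : 100 ≤ t) (a b : ℤ) (ha : a ≠ 0) (hb : b ≠ 0) (u1 u2 v1 v2 L X : ℝ)
    (hu1l : t^2 ≤ u1) (hu1u : u1 ≤ 2 * t^2) (hu2l : t^N ≤ 2 * u2) (hu2u : u2 ≤ 6 * t^N)
    (hv1l : t^6 ≤ v1) (hv1u : v1 ≤ 2 * t^6) (hv2l : (t^N)^3 ≤ 2 * v2)
    (hL : |(a:ℝ)| ≤ 10 * (t^N)^6 * t^3 * |L|)
    (hX1 : |(a:ℝ) * u1 + b * v1| ≤ X) (hX2 : |(a:ℝ) * u2 + b * v2| ≤ X)
    (hdom : Dom ρ (a * u1 + b * v1) (a * u2 + b * v2)) : t ≤ 10^6 * (X^2 * |L|) := by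
  have ha1 : (1:ℝ) ≤ |(a:ℝ)| := by
    have : 1 ≤ |a| := Int.one_le_abs ha
    exact_mod_cast this
  have hb1 : (1:ℝ) ≤ |(b:ℝ)| := by
    have : 1 ≤ |b| := Int.one_le_abs hb
    exact_mod_cast this
  have htpos : 0 < t := by linarith
  have hB : 0 < t^N := by positivity
  have hBt : t^5 ≤ t^N := pow_le_pow_right₀ (by linarith) hN
  have hu1 : 0 < u1 := lt_of_lt_of_le (by positivity) hu1l
  have hu2 : 0 < u2 := by linarith
  have hv1 : 0 < v1 := lt_of_lt_of_le (by positivity) hv1l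
  have hB3 : 0 < (t^N)^3 := by positivity
  have hv2 : 0 < v2 := by linarith
  have hL0 := abs_nonneg L
  have hX0 : 0 ≤ X := le_trans (abs_nonneg _) hX1
  -- triangle inequalities
  have tri1 : |(a:ℝ) * u1 + b * v1| ≤ |(a:ℝ)| * u1 + |(b:ℝ)| * v1 := by
    calc _ ≤ |(a:ℝ) * u1| + |(b:ℝ) * v1| := abs_add_le _ _
      _ = _ := by rw [abs_mul, abs_mul, abs_of_pos hu1, abs_of_pos hv1]
  have tri2 : |(b:ℝ)| * v2 - |(a:ℝ)| * u2 ≤ |(a:ℝ) * u2 + b * v2| := by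
    have h := abs_sub_abs_le_abs_sub ((b:ℝ) * v2) (-(a * u2))
    rw [abs_neg, abs_mul, abs_mul, abs_of_pos hu2, abs_of_pos hv2] at h
    calc _ ≤ _ := h
      _ = _ := by congr 1; ring
  have tri3 : |(a:ℝ)| * u1 - |(b:ℝ)| * v1 ≤ |(a:ℝ) * u1 + b * v1| := by
    have h := abs_sub_abs_le_abs_sub ((a:ℝ) * u1) (-(b * v1))
    rw [abs_neg, abs_mul, abs_mul, abs_of_pos hu1, abs_of_pos hv1] at h
    calc _ ≤ _ := h
      _ = _ := by congr 1; ring
  have tri4 : |(b:ℝ)| * v1 - |(a:ℝ)| * u1 ≤ |(a:ℝ) * u1 + b * v1| := by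
    have h := abs_sub_abs_le_abs_sub ((b:ℝ) * v1) (-(a * u1))
    rw [abs_neg, abs_mul, abs_mul, abs_of_pos hu1, abs_of_pos hv1] at h
    calc _ ≤ _ := h
      _ = _ := by congr 1; ring
  have hone : (1:ℝ) ≤ t := by linarith
  have ht2 : (0:ℝ) < t^2 := by positivity
  have ht4 : (0:ℝ) < t^4 := by positivity
  have ht6 : (0:ℝ) < t^6 := by positivity
  by_cases hc : 24 * |(a:ℝ)| ≤ |(b:ℝ)| * (t^N)^2
  · -- second coordinate is large
    have hy2 : |(b:ℝ)| * (t^N)^3 / 4 ≤ |(a:ℝ) * u2 + b * v2| := by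
      have e1 : |(a:ℝ)| * u2 ≤ |(a:ℝ)| * (6 * t^N) := mul_le_mul_of_nonneg_left hu2u (by linarith)
      have e2 : |(b:ℝ)| * (t^N)^3 ≤ |(b:ℝ)| * (2 * v2) :=
        mul_le_mul_of_nonneg_left hv2l (by linarith)
      have e3 : (24 * |(a:ℝ)|) * t^N ≤ (|(b:ℝ)| * (t^N)^2) * t^N :=
        mul_le_mul_of_nonneg_right hc hB.le
      nlinarith
    have hXb : |(b:ℝ)| * (t^N)^3 / 4 ≤ X := hy2.trans hX2
    have main : |(b:ℝ)|^2 * |(a:ℝ)| ≤ 160 * t^3 * (X^2 * |L|) := by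
      generalize |(a:ℝ)| = α at *
      generalize |(b:ℝ)| = β at *
      generalize t^N = B at *
      generalize |L| = M at *
      have h3 : (β * B^3 / 4)^2 ≤ X^2 := pow_le_pow_left₀ (by positivity) hXb 2
      have h4 : (β * B^3 / 4)^2 * M ≤ X^2 * M := mul_le_mul_of_nonneg_right h3 hL0
      have h5 : β^2 * α ≤ β^2 * (10 * B^6 * t^3 * M) := mul_le_mul_of_nonneg_left hL (by positivity)
      have h6 : β^2 * (10 * B^6 * t^3 * M) = 160 * t^3 * ((β * B^3 / 4)^2 * M) := by ring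
      have h7 : 160 * t^3 * ((β * B^3 / 4)^2 * M) ≤ 160 * t^3 * (X^2 * M) :=
        mul_le_mul_of_nonneg_left h4 (by positivity)
      linarith
    by_cases hc2 : |(b:ℝ)| * t^4 ≤ 4 * |(a:ℝ)|
    · -- a is large
      have hA4 : t^4 ≤ 4 * (|(b:ℝ)|^2 * |(a:ℝ)|) := by
        have e0 : t^4 ≤ |(b:ℝ)| * t^4 := by nlinarith
        have e1 : 1 ≤ |(b:ℝ)|^2 := one_le_pow₀ hb1
        nlinarith
      have : t^3 * t ≤ t^3 * (640 * (X^2 * |L|)) := by nlinarith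
      have h9 : t ≤ 640 * (X^2 * |L|) := le_of_mul_le_mul_left this (by positivity)
      have : 0 ≤ X^2 * |L| := by positivity
      linarith
    · push Not at hc2
      have hy1 : |(a:ℝ) * u1 + b * v1| ≤ 3 * |(b:ℝ)| * t^6 := by
        have e1 : |(a:ℝ)| * u1 ≤ |(a:ℝ)| * (2 * t^2) := mul_le_mul_of_nonneg_left hu1u (by linarith)
        have e2 : |(b:ℝ)| * v1 ≤ |(b:ℝ)| * (2 * t^6) := mul_le_mul_of_nonneg_left hv1u (by linarith)
        have e3 : 4 * |(a:ℝ)| * t^2 ≤ |(b:ℝ)| * t^4 * t^2 :=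
          mul_le_mul_of_nonneg_right hc2.le ht2.le
        have e4 : |(b:ℝ)| * t^4 * t^2 = |(b:ℝ)| * t^6 := by ring
        rw [e4] at e3
        nlinarith
      rcases hdom with hd | hd
      · -- domain condition
        have hy1' : |(a:ℝ) * u2 + b * v2| ≤ (3 * |(b:ℝ)| * t^6)^2 := by
          calc |(a:ℝ) * u2 + b * v2| ≤ |(a:ℝ) * u1 + b * v1| ^ ρ := hd
            _ ≤ (3 * |(b:ℝ)| * t^6) ^ ρ := Real.rpow_le_rpow (abs_nonneg _) hy1 (by linarith)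
            _ ≤ (3 * |(b:ℝ)| * t^6) ^ (2:ℝ) := by
              apply Real.rpow_le_rpow_of_exponent_le _ (by linarith)
              have : 1 ≤ t^6 := one_le_pow₀ hone
              nlinarith
            _ = (3 * |(b:ℝ)| * t^6)^2 := by norm_cast
        have e1 : |(b:ℝ)| * (t^N)^3 / 4 ≤ (3 * |(b:ℝ)| * t^6)^2 := hy2.trans hy1'
        have e2 : (t^5)^3 ≤ (t^N)^3 := pow_le_pow_left₀ (by positivity) hBt 3
        have e3 : |(b:ℝ)| * t^15 ≤ |(b:ℝ)| * (36 * |(b:ℝ)| * t^12) := by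
          have : |(b:ℝ)| * t^15 ≤ |(b:ℝ)| * (t^N)^3 := by
            apply mul_le_mul_of_nonneg_left _ (by linarith)
            calc t^15 = (t^5)^3 := by ring
              _ ≤ _ := e2
          nlinarith
        have e4 : t^15 ≤ 36 * |(b:ℝ)| * t^12 := le_of_mul_le_mul_left e3 (by linarith)
        have e5 : t^12 * t^3 ≤ t^12 * (36 * |(b:ℝ)|) := by
          calc t^12 * t^3 = t^15 := by ring
            _ ≤ _ := e4
            _ = _ := by ring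
        have e6 : t^3 ≤ 36 * |(b:ℝ)| := le_of_mul_le_mul_left e5 (by positivity)
        have e7 : (t^3)^2 ≤ (36 * |(b:ℝ)|)^2 := pow_le_pow_left₀ (by positivity) e6 2
        have e8 : (t^3)^2 ≤ 1296 * (160 * t^3 * (X^2 * |L|)) := by
          have : |(b:ℝ)|^2 ≤ |(b:ℝ)|^2 * |(a:ℝ)| := le_mul_of_one_le_right (by positivity) ha1
          nlinarith
        have e9 : t^3 * t^3 ≤ t^3 * (207360 * (X^2 * |L|)) := by nlinarith
        have e10 : t^3 ≤ 207360 * (X^2 * |L|) := le_of_mul_le_mul_left e9 (by positivity)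
        have e11 : t ≤ t^3 := by nlinarith [sq_nonneg t]
        have : 0 ≤ X^2 * |L| := by positivity
        linarith
      · -- the strip
        exfalso
        have e1 : |(b:ℝ)| * t^6 ≤ |(b:ℝ)| * v1 := mul_le_mul_of_nonneg_left hv1l (by linarith)
        have e2 : |(a:ℝ)| * u1 ≤ |(a:ℝ)| * (2 * t^2) := mul_le_mul_of_nonneg_left hu1u (by linarith)
        have e3 : 4 * |(a:ℝ)| * t^2 ≤ |(b:ℝ)| * t^4 * t^2 :=
          mul_le_mul_of_nonneg_right hc2.le ht2.le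
        have e4 : |(b:ℝ)| * t^4 * t^2 = |(b:ℝ)| * t^6 := by ring
        rw [e4] at e3
        have e5 : |(b:ℝ)| * t^6 / 2 ≤ 1 := by nlinarith
        have e6 : 2 < t^6 := by
          calc (2:ℝ) < t^1 := by linarith
            _ ≤ t^6 := pow_le_pow_right₀ hone (by norm_num)
        nlinarith
  · -- first coordinate is large
    push Not at hc
    have hBsq : t^10 ≤ (t^N)^2 := by
      calc t^10 = (t^5)^2 := by ring
        _ ≤ (t^N)^2 := pow_le_pow_left₀ (by positivity) hBt 2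
    have hy1 : |(a:ℝ)| * t^2 / 2 ≤ |(a:ℝ) * u1 + b * v1| := by
      have e1 : |(a:ℝ)| * t^2 ≤ |(a:ℝ)| * u1 := mul_le_mul_of_nonneg_left hu1l (by linarith)
      have e2 : |(b:ℝ)| * v1 ≤ |(b:ℝ)| * (2 * t^6) := mul_le_mul_of_nonneg_left hv1u (by linarith)
      have e3 : |(b:ℝ)| * t^10 ≤ 24 * |(a:ℝ)| := by
        have : |(b:ℝ)| * t^10 ≤ |(b:ℝ)| * (t^N)^2 := mul_le_mul_of_nonneg_left hBsq (by linarith)
        linarith
      have e4 : 2 * (|(b:ℝ)| * t^6) * t^4 ≤ 48 * |(a:ℝ)| := by nlinarith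
      have e5 : 96 ≤ t^4 := by
        calc (96:ℝ) ≤ t^1 := by linarith
          _ ≤ t^4 := pow_le_pow_right₀ hone (by norm_num)
      have e6 : 2 * (|(b:ℝ)| * t^6) ≤ |(a:ℝ)| / 2 := by
        have h0 : 0 ≤ 2 * (|(b:ℝ)| * t^6) := by positivity
        nlinarith
      have e7 : |(a:ℝ)| ≤ |(a:ℝ)| * t^2 := le_mul_of_one_le_right (by linarith) (one_le_pow₀ hone)
      nlinarith
    have hXa : |(a:ℝ)| * t^2 / 2 ≤ X := hy1.trans hX1
    have hcube : (t^N)^6 ≤ 13824 * |(a:ℝ)|^3 := by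
      have e1 : (t^N)^2 ≤ 24 * |(a:ℝ)| := by
        have : (t^N)^2 ≤ |(b:ℝ)| * (t^N)^2 := le_mul_of_one_le_left (by positivity) hb1
        linarith
      calc (t^N)^6 = ((t^N)^2)^3 := by ring
        _ ≤ (24 * |(a:ℝ)|)^3 := pow_le_pow_left₀ (by positivity) e1 3
        _ = _ := by ring
    generalize |(a:ℝ)| = α at *
    generalize t^N = B at *
    generalize |L| = M at *
    have h3 : (α * t^2 / 2)^2 ≤ X^2 := pow_le_pow_left₀ (by positivity) hXa 2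
    have h4 : (α * t^2 / 2)^2 * M ≤ X^2 * M := mul_le_mul_of_nonneg_right h3 hL0
    have h5 : α^2 * α ≤ α^2 * (10 * B^6 * t^3 * M) := mul_le_mul_of_nonneg_left hL (by positivity)
    have h6 : α^2 * (10 * B^6 * t^3 * M) * t = 40 * B^6 * ((α * t^2 / 2)^2 * M) := by ring
    have h7 : α^3 * t ≤ 40 * B^6 * (X^2 * M) := by
      calc α^3 * t = α^2 * α * t := by ring
        _ ≤ α^2 * (10 * B^6 * t^3 * M) * t := mul_le_mul_of_nonneg_right h5 htpos.le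
        _ = 40 * B^6 * ((α * t^2 / 2)^2 * M) := h6
        _ ≤ 40 * B^6 * (X^2 * M) := mul_le_mul_of_nonneg_left h4 (by positivity)
    have h8 : B^6 * t ≤ B^6 * (552960 * (X^2 * M)) := by
      calc B^6 * t ≤ 13824 * α^3 * t := mul_le_mul_of_nonneg_right hcube htpos.le
        _ ≤ 13824 * (40 * B^6 * (X^2 * M)) := by linarith
        _ = B^6 * (552960 * (X^2 * M)) := by ring
    have h9 : t ≤ 552960 * (X^2 * M) := le_of_mul_le_mul_left h8 (by positivity)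
    have : 0 ≤ X^2 * M := by positivity
    linarith

end Pool.Agent.Helper8.Thurn
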