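import Mathlib
import Pool.Agent.Helper8.Thurn4

/-! Assembly of the construction -/

namespace Pool.Agent.Helper8.Thurn

/-- all the data of the construction -/
structure Data (N : ℕ) where
  S : ℕ → St
  k : ℕ → ℕ
  v0 : ℕ → ℤ
  v1 : ℕ → ℤ
  v2 : ℕ → ℤ
  inv : ∀ i, Inv N ((100:ℤ)^(3^i)) (S i)
  rel : ∀ i, Rel N ((100:ℤ)^(3^i)) (S i) (S (i+1)) (k i) (v0 i) (v1 i) (v2 i)
  θ1 : ℝ
  θ2 : ℝ
  e1 : ∀ i, |((S i).z1 : ℝ) - (S i).z0 * θ1| ≤ 24 / (((100:ℝ)^(3^i))^(N+1))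
  e2 : ∀ i, |((S i).z2 : ℝ) - (S i).z0 * θ2| ≤ 24 / (((100:ℝ)^(3^i))^(N+1))

lemma t_ge (i : ℕ) : (100:ℝ) ≤ (100:ℝ)^(3^i) := by
  calc (100:ℝ) = 100^1 := (pow_one _).symm
    _ ≤ 100^(3^i) := pow_le_pow_right₀ (by norm_num) (Nat.one_le_pow _ _ (by norm_num))

lemma t_succ (i : ℕ) : (100:ℝ)^(3^(i+1)) = ((100:ℝ)^(3^i))^3 := by
  rw [← pow_mul, pow_succ]

lemma t_le (i : ℕ) : (100:ℝ)^(3^i) ≤ (100:ℝ)^(3^(i+1)) := by
  rw [t_succ]
  have := t_ge i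
  calc (100:ℝ)^(3^i) = ((100:ℝ)^(3^i))^1 := (pow_one _).symm
    _ ≤ _ := pow_le_pow_right₀ (by linarith) (by norm_num)

lemma exists_data (N : ℕ) (hN : 5 ≤ N) : Nonempty (Data N) := by
  obtain ⟨S, k, v0, v1, v2, h⟩ := exists_seq N hN 100 le_rfl
  have hD : ∀ i, 0 < (S i).z0 := fun i => (h i).1.zl
  have ht1 : ∀ i : ℕ, (1:ℤ) ≤ 100^(3^i) := fun i => one_le_pow₀ (by norm_num)
  have hmono : ∀ i, (S i).z0 ≤ (S (i+1)).z0 := by
    intro i
    calc (S i).z0 ≤ ((100:ℤ)^(3^i))^(N+1) := (h i).1.zu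
      _ ≤ ((100:ℤ)^(3^i))^(3*N+2) := pow_le_pow_right₀ (ht1 i) (by omega)
      _ ≤ _ := (h i).2.Dl
  have hδ0 : ∀ i : ℕ, 0 ≤ 12 / (((100:ℝ)^(3^i))^(N+1)) := fun i => by positivity
  have hδ : ∀ i : ℕ, 2 * (12 / (((100:ℝ)^(3^(i+1)))^(N+1))) ≤ 12 / (((100:ℝ)^(3^i))^(N+1)) := by
    intro i
    have h1 : 0 < ((100:ℝ)^(3^i))^(N+1) := by positivity
    have h2 : 0 < ((100:ℝ)^(3^(i+1)))^(N+1) := by positivity
    rw [← mul_div_assoc, div_le_div_iff₀ h2 h1]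
    have h3 : ((100:ℝ)^(3^(i+1)))^(N+1) = (((100:ℝ)^(3^i))^(N+1))^3 := by
      rw [t_succ]; ring
    rw [h3]
    have h4 : (100:ℝ) ≤ ((100:ℝ)^(3^i))^(N+1) := by
      calc (100:ℝ) ≤ (100:ℝ)^(3^i) := t_ge i
        _ = ((100:ℝ)^(3^i))^1 := (pow_one _).symm
        _ ≤ _ := pow_le_pow_right₀ (by have := t_ge i; linarith) (by omega)
    generalize ((100:ℝ)^(3^i))^(N+1) = P at *
    have h5 : P * 2 ≤ P * P^2 := by
      apply mul_le_mul_of_nonneg_left _ h1.le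
      nlinarith
    nlinarith
  have hcommon : ∀ i : ℕ, 12 * ((100:ℝ)^(3^i))^(2*N+1) ≤
      12 / (((100:ℝ)^(3^i))^(N+1)) * (S (i+1)).z0 := by
    intro i
    have h1 : 0 < ((100:ℝ)^(3^i))^(N+1) := by positivity
    have hDl : ((100:ℝ)^(3^i))^(3*N+2) ≤ (S (i+1)).z0 := by exact_mod_cast (h i).2.Dl
    have e : ((100:ℝ)^(3^i))^(3*N+2) = ((100:ℝ)^(3^i))^(N+1) * ((100:ℝ)^(3^i))^(2*N+1) := by
      rw [← pow_add]; congr 1; ring
    rw [div_mul_eq_mul_div, le_div_iff₀ h1]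
    rw [e] at hDl
    nlinarith
  have hz1 : ∀ i, |(((S i).z0 * (S (i+1)).z1 - (S (i+1)).z0 * (S i).z1 : ℤ) : ℝ)| ≤
      12 / (((100:ℝ)^(3^i))^(N+1)) * (S (i+1)).z0 := by
    intro i
    refine le_trans ?_ (hcommon i)
    obtain ⟨hI, hR⟩ := h i
    have e : (S i).z0 * (S (i+1)).z1 - (S (i+1)).z0 * (S i).z1 = Nat.fib (k i + 1) * (S i).b2 := by
      rw [hR.z1, hR.z0, ← hR.zv2]; ring
    have hb2 : 0 ≤ (S i).b2 := by
      have := hI.b2l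
      have : 0 < ((100:ℤ)^(3^i))^N := by positivity
      linarith
    have hint : (Nat.fib (k i + 1) : ℤ) * (S i).b2 ≤ 12 * ((100:ℤ)^(3^i))^(2*N+1) := by
      calc (Nat.fib (k i + 1) : ℤ) * (S i).b2 ≤ (2 * ((100:ℤ)^(3^i))^(N+1)) * (6 * ((100:ℤ)^(3^i))^N) := by
            apply mul_le_mul hR.nu hI.b2u hb2 (by positivity)
        _ = 12 * ((100:ℤ)^(3^i))^(2*N+1) := by ring
    rw [e, abs_of_nonneg (by exact_mod_cast mul_nonneg (by positivity) hb2)]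
    exact_mod_cast hint
  have hz2 : ∀ i, |(((S i).z0 * (S (i+1)).z2 - (S (i+1)).z0 * (S i).z2 : ℤ) : ℝ)| ≤
      12 / (((100:ℝ)^(3^i))^(N+1)) * (S (i+1)).z0 := by
    intro i
    refine le_trans ?_ (hcommon i)
    obtain ⟨hI, hR⟩ := h i
    have e : (S i).z0 * (S (i+1)).z2 - (S (i+1)).z0 * (S i).z2 = - (Nat.fib (k i + 1) * (S i).b1) := by
      rw [hR.z2, hR.z0, ← hR.zv1]; ring
    have hb1 : 0 ≤ (S i).b1 := by
      have := hI.b1l
      have : 0 < ((100:ℤ)^(3^i))^2 := by positivity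
      linarith
    have hint : (Nat.fib (k i + 1) : ℤ) * (S i).b1 ≤ 12 * ((100:ℤ)^(3^i))^(2*N+1) := by
      calc (Nat.fib (k i + 1) : ℤ) * (S i).b1 ≤ (2 * ((100:ℤ)^(3^i))^(N+1)) * (2 * ((100:ℤ)^(3^i))^2) := by
            apply mul_le_mul hR.nu hI.b1u hb1 (by positivity)
        _ = 4 * ((100:ℤ)^(3^i))^(N+3) := by ring
        _ ≤ 12 * ((100:ℤ)^(3^i))^(2*N+1) := by
            have h1 : ((100:ℤ)^(3^i))^(N+3) ≤ ((100:ℤ)^(3^i))^(2*N+1) :=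
              pow_le_pow_right₀ (ht1 i) (by omega)
            have h2 : 0 < ((100:ℤ)^(3^i))^(N+3) := by positivity
            linarith
    rw [e]
    push_cast
    rw [abs_neg, abs_of_nonneg (by exact_mod_cast mul_nonneg (by positivity) hb1)]
    exact_mod_cast hint
  obtain ⟨θ1, hθ1⟩ := exists_limit (fun i => (S i).z0) (fun i => (S i).z1) _ hD hmono hδ hδ0 hz1
  obtain ⟨θ2, hθ2⟩ := exists_limit (fun i => (S i).z0) (fun i => (S i).z2) _ hD hmono hδ hδ0 hz2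
  refine ⟨⟨S, k, v0, v1, v2, fun i => (h i).1, fun i => (h i).2, θ1, θ2, ?_, ?_⟩⟩
  · intro i
    refine (hθ1 i).trans (le_of_eq ?_)
    ring
  · intro i
    refine (hθ2 i).trans (le_of_eq ?_)
    ring

variable {N : ℕ}

/-- the linear form at an integer point -/
noncomputable def Data.L (d : Data N) (y0 y1 y2 : ℤ) : ℝ := y0 + d.θ1 * y1 + d.θ2 * y2

/-- the sup norm of the last two coordinates -/
noncomputable def nrm (y1 y2 : ℤ) : ℝ := max |(y1:ℝ)| |(y2:ℝ)|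

lemma Data.z_est (d : Data N) (i : ℕ) (y0 y1 y2 : ℤ) :
    |(((d.S i).z0 * y0 + (d.S i).z1 * y1 + (d.S i).z2 * y2 : ℤ) : ℝ) - (d.S i).z0 * d.L y0 y1 y2|
      ≤ 48 * nrm y1 y2 / (((100:ℝ)^(3^i))^(N+1)) := by
  have e : (((d.S i).z0 * y0 + (d.S i).z1 * y1 + (d.S i).z2 * y2 : ℤ) : ℝ) -
      (d.S i).z0 * d.L y0 y1 y2 = (((d.S i).z1 : ℝ) - (d.S i).z0 * d.θ1) * y1 +
        (((d.S i).z2 : ℝ) - (d.S i).z0 * d.θ2) * y2 := by
    rw [Data.L]; push_cast; ring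
  rw [e]
  have hP : 0 < ((100:ℝ)^(3^i))^(N+1) := by positivity
  have h1 : |(y1:ℝ)| ≤ nrm y1 y2 := le_max_left _ _
  have h2 : |(y2:ℝ)| ≤ nrm y1 y2 := le_max_right _ _
  calc _ ≤ |(((d.S i).z1 : ℝ) - (d.S i).z0 * d.θ1) * y1| +
        |(((d.S i).z2 : ℝ) - (d.S i).z0 * d.θ2) * y2| := abs_add_le _ _
    _ ≤ 24 / (((100:ℝ)^(3^i))^(N+1)) * nrm y1 y2 + 24 / (((100:ℝ)^(3^i))^(N+1)) * nrm y1 y2 := by
        rw [abs_mul, abs_mul]
        gcongr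
        · exact d.e1 i
        · exact d.e2 i
    _ = _ := by ring

/-- lower bound for the linear form from the next normal vector -/
lemma Data.L_bound (d : Data N) (i : ℕ) (y0 y1 y2 : ℤ)
    (hz : (d.S i).z0 * y0 + (d.S i).z1 * y1 + (d.S i).z2 * y2 = 0)
    (hX : 96 * nrm y1 y2 ≤ ((100:ℝ)^(3^(i+1)))^(N+1)) :
    |((d.v0 i * y0 + d.v1 i * y1 + d.v2 i * y2 : ℤ) : ℝ)| ≤
      10 * ((100:ℝ)^(3^i))^(2*N+1) * |d.L y0 y1 y2| := by
  obtain ⟨hI, hR⟩ := And.intro (d.inv i) (d.rel i)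
  set a : ℤ := d.v0 i * y0 + d.v1 i * y1 + d.v2 i * y2 with ha
  by_cases ha0 : a = 0
  · rw [ha0]
    simp only [Int.cast_zero, abs_zero]
    positivity
  have e : (d.S (i+1)).z0 * y0 + (d.S (i+1)).z1 * y1 + (d.S (i+1)).z2 * y2 =
      Nat.fib (d.k i + 1) * a := by
    rw [hR.z0, hR.z1, hR.z2, ha]
    linear_combination (Nat.fib (d.k i) : ℤ) * hz
  have h1 := d.z_est (i+1) y0 y1 y2
  rw [e] at h1
  have hP : 0 < ((100:ℝ)^(3^(i+1)))^(N+1) := by positivity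
  have h2 : 48 * nrm y1 y2 / (((100:ℝ)^(3^(i+1)))^(N+1)) ≤ 1/2 := by
    rw [div_le_iff₀ hP]; linarith
  have hD1 : (0:ℝ) < (d.S (i+1)).z0 := by exact_mod_cast (d.inv (i+1)).zl
  have hDu : ((d.S (i+1)).z0 : ℝ) ≤ 5 * ((100:ℝ)^(3^i))^(3*N+2) := by exact_mod_cast hR.Du
  have hnl : ((100:ℝ)^(3^i))^(N+1) ≤ (Nat.fib (d.k i + 1) : ℝ) := by exact_mod_cast hR.nl
  have ht : (100:ℝ) ≤ (100:ℝ)^(3^i) := t_ge i
  generalize (100:ℝ)^(3^i) = t at *
  have hn1 : (1:ℝ) ≤ (Nat.fib (d.k i + 1) : ℝ) := le_trans (one_le_pow₀ (by linarith)) hnl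
  have ha1 : (1:ℝ) ≤ |(a:ℝ)| := by
    have : 1 ≤ |a| := Int.one_le_abs ha0
    exact_mod_cast this
  have h3 : (Nat.fib (d.k i + 1) : ℝ) * |(a:ℝ)| - (d.S (i+1)).z0 * |d.L y0 y1 y2| ≤ 1/2 := by
    have h4 := abs_sub_abs_le_abs_sub (((Nat.fib (d.k i + 1) * a : ℤ)) : ℝ) ((d.S (i+1)).z0 * d.L y0 y1 y2)
    rw [abs_mul, abs_of_pos hD1] at h4
    push_cast at h4
    rw [abs_mul, abs_of_nonneg (by positivity : (0:ℝ) ≤ (Nat.fib (d.k i + 1) : ℝ))] at h4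
    push_cast at h1
    linarith
  have hM : 0 ≤ |d.L y0 y1 y2| := abs_nonneg _
  generalize |d.L y0 y1 y2| = M at *
  generalize |(a:ℝ)| = α at *
  generalize ((d.S (i+1)).z0 : ℝ) = D at *
  generalize (Nat.fib (d.k i + 1) : ℝ) = n at *
  have h5 : n * α ≤ 2 * (D * M) := by nlinarith
  have h6 : t^(N+1) * α ≤ n * α := mul_le_mul_of_nonneg_right hnl (by linarith)
  have h7 : D * M ≤ 5 * t^(3*N+2) * M := mul_le_mul_of_nonneg_right hDu hM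
  have h8 : t^(N+1) * α ≤ t^(N+1) * (10 * t^(2*N+1) * M) := by
    calc t^(N+1) * α ≤ 2 * (5 * t^(3*N+2) * M) := by linarith
      _ = t^(N+1) * (10 * t^(2*N+1) * M) := by
        have : t^(3*N+2) = t^(N+1) * t^(2*N+1) := by rw [← pow_add]; congr 1; ring
        rw [this]; ring
  exact le_of_mul_le_mul_left h8 (by positivity)

lemma Data.key (d : Data N) (hN5 : 5 ≤ N) (ρ : ℝ) (h1 : 1 < ρ) (h2 : ρ < 7/4)
    (hN : 18 ≤ (7 - 4*ρ) * N) (i : ℕ) (y0 y1 y2 : ℤ)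
    (hdom : Dom ρ y1 y2)
    (hXl : ((100:ℝ)^(3^i))^(N+1) ≤ 96 * nrm y1 y2)
    (hXu : 96 * nrm y1 y2 < ((100:ℝ)^(3^(i+1)))^(N+1)) :
    (100:ℝ)^(3^i) ≤ 10^6 * ((nrm y1 y2)^2 * |d.L y0 y1 y2|) := by
  obtain ⟨hI, hR⟩ := And.intro (d.inv i) (d.rel i)
  obtain ⟨hI', hR'⟩ := And.intro (d.inv (i+1)) (d.rel (i+1))
  have ht : (100:ℝ) ≤ (100:ℝ)^(3^i) := t_ge i
  have hts := t_succ i
  have hM0 : 0 ≤ (nrm y1 y2)^2 * |d.L y0 y1 y2| := by positivity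
  by_cases hj' : (d.S (i+1)).z0 * y0 + (d.S (i+1)).z1 * y1 + (d.S (i+1)).z2 * y2 = 0
  · -- Case 2
    set S := d.S (i+1) with hS
    set a : ℤ := (S.b1 * S.c2 - S.b2 * S.c1) * y0 + (S.b2 * S.c0 - S.b0 * S.c2) * y1
      + (S.b0 * S.c1 - S.b1 * S.c0) * y2 with ha
    set b : ℤ := (S.c1 * S.a2 - S.c2 * S.a1) * y0 + (S.c2 * S.a0 - S.c0 * S.a2) * y1
      + (S.c0 * S.a1 - S.c1 * S.a0) * y2 with hb
    have hdet : S.dt = 1 := hI'.det
    have hdet2 : (S.a1 * S.b2 - S.a2 * S.b1) * S.c0 + (S.a2 * S.b0 - S.a0 * S.b2) * S.c1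
      + (S.a0 * S.b1 - S.a1 * S.b0) * S.c2 = 1 := hdet
    have hzy : (S.a1 * S.b2 - S.a2 * S.b1) * y0 + (S.a2 * S.b0 - S.a0 * S.b2) * y1
      + (S.a0 * S.b1 - S.a1 * S.b0) * y2 = 0 := hj'
    have hy0 : y0 = a * S.a0 + b * S.b0 := by
      rw [ha, hb]
      linear_combination (-y0) * hdet2 + S.c0 * hzy
    have hy1 : y1 = a * S.a1 + b * S.b1 := by
      rw [ha, hb]
      linear_combination (-y1) * hdet2 + S.c1 * hzy
    have hy2 : y2 = a * S.a2 + b * S.b2 := by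
      rw [ha, hb]
      linear_combination (-y2) * hdet2 + S.c2 * hzy
    have hva : d.v0 (i+1) * y0 + d.v1 (i+1) * y1 + d.v2 (i+1) * y2 = a := by
      have e1 := hR'.va
      have e2 := hR'.vb
      rw [hy0, hy1, hy2]
      linear_combination a * e1 + b * e2
    have hXu2 : 96 * nrm y1 y2 ≤ ((100:ℝ)^(3^(i+1+1)))^(N+1) := by
      refine hXu.le.trans ?_
      exact pow_le_pow_left₀ (by positivity) (t_le (i+1)) _
    have hLb := d.L_bound (i+1) y0 y1 y2 hj' hXu2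
    rw [hva] at hLb
    by_cases ha0 : a = 0
    · -- y is a multiple of the second vector
      have hb0 : b ≠ 0 := by
        intro hb0
        rw [ha0, hb0] at hy1 hy2
        have : nrm y1 y2 = 0 := by rw [nrm, hy1, hy2]; simp
        rw [this] at hXl
        have : 0 < ((100:ℝ)^(3^i))^(N+1) := by positivity
        linarith
      rw [ha0] at hy0 hy1 hy2
      simp only [zero_mul, zero_add] at hy0 hy1 hy2
      have hz2 : (d.S (i+1+1)).z0 * y0 + (d.S (i+1+1)).z1 * y1 + (d.S (i+1+1)).z2 * y2 = 0 := by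
        have e0 := hR'.z0
        have e1 := hR'.z1
        have e2 := hR'.z2
        rw [e0, e1, e2]
        have e3 : d.v0 (i+1) * y0 + d.v1 (i+1) * y1 + d.v2 (i+1) * y2 = 0 := by rw [hva, ha0]
        linear_combination (Nat.fib (d.k (i+1) + 1) : ℤ) * e3 + (Nat.fib (d.k (i+1)) : ℤ) * hj'
      have hXu3 : 96 * nrm y1 y2 ≤ ((100:ℝ)^(3^(i+1+1+1)))^(N+1) := by
        refine hXu2.trans ?_
        exact pow_le_pow_left₀ (by positivity) (t_le (i+1+1)) _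
      have hLb2 := d.L_bound (i+1+1) y0 y1 y2 hz2 hXu3
      have hR2 := d.rel (i+1+1)
      have hvb : d.v0 (i+1+1) * y0 + d.v1 (i+1+1) * y1 + d.v2 (i+1+1) * y2 = b := by
        have e1 := hR2.va
        have f0 := hR'.a0
        have f1 := hR'.a1
        have f2 := hR'.a2
        rw [f0, f1, f2] at e1
        rw [hy0, hy1, hy2]
        linear_combination b * e1
      rw [hvb] at hLb2
      have hB1l : ((100:ℝ)^(3^(i+1)))^2 ≤ S.b1 := by exact_mod_cast hI'.b1l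
      have hB1u : (S.b1 : ℝ) ≤ 2 * ((100:ℝ)^(3^(i+1)))^2 := by exact_mod_cast hI'.b1u
      have hB2l : ((100:ℝ)^(3^(i+1)))^N ≤ 2 * S.b2 := by exact_mod_cast hI'.b2l
      have hy1R : (y1:ℝ) = b * S.b1 := by rw [hy1]; push_cast; ring
      have hy2R : (y2:ℝ) = b * S.b2 := by rw [hy2]; push_cast; ring
      have := case2b ρ h1 h2 N hN ((100:ℝ)^(3^(i+1))) (t_ge (i+1)) b hb0 S.b1 S.b2
        (d.L y0 y1 y2) (nrm y1 y2) hB1l hB1u hB2l (by
          refine hLb2.trans (le_of_eq ?_)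
          rw [t_succ (i+1)]; ring) (by
          rw [← hy2R]; exact le_max_right _ _) (by
          rw [← hy1R, ← hy2R]; exact hdom)
      have h3 := t_le i
      linarith
    · have hA1 : S.a1 = (d.S i).b1 := hR.a1
      have hA2 : S.a2 = (d.S i).b2 := hR.a2
      have hu1l : ((100:ℝ)^(3^i))^2 ≤ S.a1 := by rw [hA1]; exact_mod_cast hI.b1l
      have hu1u : (S.a1 : ℝ) ≤ 2 * ((100:ℝ)^(3^i))^2 := by rw [hA1]; exact_mod_cast hI.b1u
      have hu2l : ((100:ℝ)^(3^i))^N ≤ 2 * S.a2 := by rw [hA2]; exact_mod_cast hI.b2l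
      have hu2u : (S.a2 : ℝ) ≤ 6 * ((100:ℝ)^(3^i))^N := by rw [hA2]; exact_mod_cast hI.b2u
      have hLb' : |(a:ℝ)| ≤ 10 * (((100:ℝ)^(3^i))^N)^6 * ((100:ℝ)^(3^i))^3 * |d.L y0 y1 y2| := by
        refine hLb.trans (le_of_eq ?_)
        rw [t_succ i]; ring
      by_cases hb0 : b = 0
      · rw [hb0] at hy1 hy2
        simp only [zero_mul, add_zero] at hy1 hy2
        have hy1R : (y1:ℝ) = a * S.a1 := by rw [hy1]; push_cast; ring
        have hy2R : (y2:ℝ) = a * S.a2 := by rw [hy2]; push_cast; ring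
        have := case2b ρ h1 h2 N hN ((100:ℝ)^(3^i)) ht a ha0 S.a1 S.a2
          (d.L y0 y1 y2) (nrm y1 y2) hu1l hu1u hu2l hLb' (by
            rw [← hy2R]; exact le_max_right _ _) (by
            rw [← hy1R, ← hy2R]; exact hdom)
        linarith
      · have hv1l : ((100:ℝ)^(3^i))^6 ≤ S.b1 := by
          have : ((100:ℝ)^(3^(i+1)))^2 ≤ S.b1 := by exact_mod_cast hI'.b1l
          refine le_trans (le_of_eq ?_) this
          rw [t_succ i]; ring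
        have hv1u : (S.b1 : ℝ) ≤ 2 * ((100:ℝ)^(3^i))^6 := by
          have : (S.b1 : ℝ) ≤ 2 * ((100:ℝ)^(3^(i+1)))^2 := by exact_mod_cast hI'.b1u
          refine this.trans (le_of_eq ?_)
          rw [t_succ i]; ring
        have hv2l : (((100:ℝ)^(3^i))^N)^3 ≤ 2 * S.b2 := by
          have : ((100:ℝ)^(3^(i+1)))^N ≤ 2 * S.b2 := by exact_mod_cast hI'.b2l
          refine le_trans (le_of_eq ?_) this
          rw [t_succ i]; ring
        have hy1R : (y1:ℝ) = a * S.a1 + b * S.b1 := by rw [hy1]; push_cast; ring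
        have hy2R : (y2:ℝ) = a * S.a2 + b * S.b2 := by rw [hy2]; push_cast; ring
        exact case2a ρ h1 h2 N hN5 ((100:ℝ)^(3^i)) ht a b ha0 hb0 S.a1 S.a2 S.b1 S.b2
          (d.L y0 y1 y2) (nrm y1 y2) hu1l hu1u hu2l hu2u hv1l hv1u hv2l hLb' (by
            rw [← hy1R]; exact le_max_left _ _) (by
            rw [← hy2R]; exact le_max_right _ _) (by
            rw [← hy1R, ← hy2R]; exact hdom)
  · -- Case 1
    have hest := d.z_est i y0 y1 y2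
    have hest' := d.z_est (i+1) y0 y1 y2
    have hP : 0 < ((100:ℝ)^(3^(i+1)))^(N+1) := by positivity
    have hhalf : 48 * nrm y1 y2 / (((100:ℝ)^(3^(i+1)))^(N+1)) ≤ 1/2 := by
      rw [div_le_iff₀ hP]; linarith
    have hD0 : (0:ℝ) < (d.S i).z0 := by exact_mod_cast hI.zl
    have hD0A : ((d.S i).z0 : ℝ) ≤ ((100:ℝ)^(3^i))^(N+1) := by exact_mod_cast hI.zu
    have hD1 : (0:ℝ) < (d.S (i+1)).z0 := by exact_mod_cast hI'.zl
    have hD1u : ((d.S (i+1)).z0 : ℝ) ≤ 5 * ((100:ℝ)^(3^i))^(3*N+2) := by exact_mod_cast hR.Du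
    have hn : ((100:ℝ)^(3^i))^(N+1) ≤ (Nat.fib (d.k i + 1) : ℝ) := by exact_mod_cast hR.nl
    refine case1 ((100:ℝ)^(3^i)) (((100:ℝ)^(3^i))^(N+1)) (d.S i).z0 (d.S (i+1)).z0
      (Nat.fib (d.k i + 1)) (nrm y1 y2) (d.L y0 y1 y2)
      ((d.S i).z0 * y0 + (d.S i).z1 * y1 + (d.S i).z2 * y2)
      ((d.S (i+1)).z0 * y0 + (d.S (i+1)).z1 * y1 + (d.S (i+1)).z2 * y2) ht ?_ hD0 hD0A hD1 ?_ hn
      hXl hest (hest'.trans hhalf) hj' ?_
    · calc (100:ℝ)^(3^i) = ((100:ℝ)^(3^i))^1 := (pow_one _).symm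
        _ ≤ _ := pow_le_pow_right₀ (by linarith) (by omega)
    · calc ((d.S (i+1)).z0 : ℝ) * (100:ℝ)^(3^i) ≤ (5 * ((100:ℝ)^(3^i))^(3*N+2)) * (100:ℝ)^(3^i) :=
            mul_le_mul_of_nonneg_right hD1u (by linarith)
        _ = 5 * (((100:ℝ)^(3^i))^(N+1))^3 := by ring
    · have hrel : (d.S (i+1)).z0 * y0 + (d.S (i+1)).z1 * y1 + (d.S (i+1)).z2 * y2 =
          Nat.fib (d.k i + 1) * (d.v0 i * y0 + d.v1 i * y1 + d.v2 i * y2) +
          Nat.fib (d.k i) * ((d.S i).z0 * y0 + (d.S i).z1 * y1 + (d.S i).z2 * y2) := by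
        rw [hR.z0, hR.z1, hR.z2]; ring
      rw [hrel] at hj' ⊢
      set j : ℤ := (d.S i).z0 * y0 + (d.S i).z1 * y1 + (d.S i).z2 * y2 with hj
      set h : ℤ := d.v0 i * y0 + d.v1 i * y1 + d.v2 i * y2 with hh
      by_cases hj0 : j = 0
      · left
        rw [hj0] at hj' ⊢
        simp only [mul_zero, add_zero] at hj' ⊢
        have hh0 : h ≠ 0 := fun h0 => hj' (by rw [h0, mul_zero])
        have : 1 ≤ |h| := Int.one_le_abs hh0
        have hR1 : (1:ℝ) ≤ |(h:ℝ)| := by exact_mod_cast this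
        push_cast
        rw [abs_mul, abs_of_nonneg (by positivity : (0:ℝ) ≤ (Nat.fib (d.k i + 1) : ℝ))]
        exact le_mul_of_one_le_right (by positivity) hR1
      · right
        have := fib_lemma (d.k i) h j hj0 hj'
        have hcast : (((Nat.fib (d.k i + 1) : ℤ)) : ℝ) ≤
            ((6 * (|(Nat.fib (d.k i + 1) : ℤ) * h + Nat.fib (d.k i) * j| * |j|) : ℤ) : ℝ) := by
          exact_mod_cast this
        simpa using hcast

end Pool.Agent.Helper8.Thurn
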